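import Pool.Agent.R220.DiscPoly

set_option autoImplicit false

/-!
# The extremal disc example (MP_a50f86_an)

In the smooth bounded convex domain `Ω = {x⁴ + y⁴ + t⁴/4 < 1}` there is no unique extremal
conformal harmonic disc through `0` tangent to the plane `t = 0`.
-/

open Complex Metric Set Filter Topology InnerProductSpace Laplacian

namespace Pool.Agent.R220.Disc

abbrev E3 := EuclideanSpace ℝ (Fin 3)

/-- the defining function -/
noncomputable def rho (x : E3) : ℝ := x 0 ^ 4 + x 1 ^ 4 + 1/4 * x 2 ^ 4 - 1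

/-- the domain -/
def Om : Set E3 := {x | rho x < 0}

/-- conformal harmonic discs -/
structure CH (Ω : Set E3) (f : ℂ → E3) : Prop where
  smooth : ContDiffOn ℝ 2 f (ball (0 : ℂ) 1)
  maps : ∀ z ∈ ball (0 : ℂ) 1, f z ∈ Ω
  conf : ∀ z ∈ ball (0 : ℂ) 1, ‖fderiv ℝ f z (1 : ℂ)‖ = ‖fderiv ℝ f z Complex.I‖ ∧
    inner ℝ (fderiv ℝ f z (1 : ℂ)) (fderiv ℝ f z Complex.I) = 0
  harm : ∀ z ∈ ball (0 : ℂ) 1, fderiv ℝ (fun w => fderiv ℝ f w (1 : ℂ)) z (1 : ℂ) +
    fderiv ℝ (fun w => fderiv ℝ f w Complex.I) z Complex.I = 0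

variable {Ω : Set E3} {f : ℂ → E3}

lemma CH.contDiffAt (h : CH Ω f) {z : ℂ} (hz : z ∈ ball (0 : ℂ) 1) : ContDiffAt ℝ 2 f z :=
  (h.smooth z hz).contDiffAt (isOpen_ball.mem_nhds hz)

lemma CH.differentiableAt (h : CH Ω f) {z : ℂ} (hz : z ∈ ball (0 : ℂ) 1) :
    DifferentiableAt ℝ f z := (h.contDiffAt hz).differentiableAt (by norm_num)

lemma fderiv_coord {g : ℂ → E3} {z : ℂ} (hg : DifferentiableAt ℝ g z) (i : Fin 3) (v : ℂ) :
    fderiv ℝ (fun w => g w i) z v = (fderiv ℝ g z v) i := by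
  have h1 : HasFDerivAt (fun w => g w i) ((EuclideanSpace.proj i : E3 →L[ℝ] ℝ).comp
      (fderiv ℝ g z)) z :=
    (EuclideanSpace.proj i : E3 →L[ℝ] ℝ).hasFDerivAt.comp z hg.hasFDerivAt
  rw [h1.fderiv]
  rfl

lemma CH.coord_contDiffAt (h : CH Ω f) (i : Fin 3) {z : ℂ} (hz : z ∈ ball (0 : ℂ) 1) :
    ContDiffAt ℝ 2 (fun w => f w i) z :=
  (EuclideanSpace.proj i : E3 →L[ℝ] ℝ).contDiff.contDiffAt.comp z (h.contDiffAt hz)

lemma fderiv_dir {g : ℂ → E3} {z : ℂ} (hg : ContDiffAt ℝ 2 g z) (e : ℂ) :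
    DifferentiableAt ℝ (fun w => fderiv ℝ g w e) z := by
  have h1 : DifferentiableAt ℝ (fderiv ℝ g) z :=
    (hg.fderiv_right (m := 1) (by norm_num)).differentiableAt (by norm_num)
  exact h1.clm_apply (differentiableAt_const e)

lemma lap_eq {u : ℂ → ℝ} {z : ℂ} (hu : ContDiffAt ℝ 2 u z) : (Δ u) z =
    fderiv ℝ (fun w => fderiv ℝ u w (1 : ℂ)) z 1 + fderiv ℝ (fun w => fderiv ℝ u w I) z I := by
  have h1 : DifferentiableAt ℝ (fderiv ℝ u) z :=
    (hu.fderiv_right (m := 1) (by norm_num)).differentiableAt (by norm_num)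
  have h2 : ∀ e : ℂ, fderiv ℝ (fun w => fderiv ℝ u w e) z e = fderiv ℝ (fderiv ℝ u) z e e := by
    intro e
    rw [fderiv_clm_apply h1 (differentiableAt_const e)]
    simp
  rw [laplacian_eq_iteratedFDeriv_complexPlane, h2, h2]
  simp [iteratedFDeriv_two_apply]

lemma CH.harmonic (h : CH Ω f) (i : Fin 3) :
    HarmonicOnNhd (fun w => f w i) (ball (0 : ℂ) 1) := by
  intro z hz
  refine ⟨h.coord_contDiffAt i hz, ?_⟩
  filter_upwards [isOpen_ball.mem_nhds hz] with w hw
  rw [lap_eq (h.coord_contDiffAt i hw)]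
  have key : ∀ e : ℂ, fderiv ℝ (fun w => fderiv ℝ (fun w => f w i) w e) w e =
      (fderiv ℝ (fun w => fderiv ℝ f w e) w e) i := by
    intro e
    rw [← fderiv_coord (fderiv_dir (h.contDiffAt hw) e) i e]
    have : (fun w => fderiv ℝ (fun w => f w i) w e) =ᶠ[𝓝 w] fun w => (fderiv ℝ f w e) i := by
      filter_upwards [isOpen_ball.mem_nhds hw] with w' hw'
      exact fderiv_coord (h.differentiableAt hw') i e
    rw [this.fderiv_eq]
  rw [key, key]
  have := congrArg (fun x : E3 => x i) (h.harm w hw)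
  simpa using this

/-- a planar conformal harmonic disc in `Om` is a holomorphic disc; Schwarz lemma -/
theorem planar_bound (h : CH Om f) (h2 : ∀ z ∈ ball (0 : ℂ) 1, f z 2 = 0) (h0 : f 0 = 0)
    {r : ℝ} (hr : 0 < r) (hx : fderiv ℝ f 0 (1 : ℂ) = r • (EuclideanSpace.single 0 1 : E3))
    (hy : fderiv ℝ f 0 Complex.I = r • (EuclideanSpace.single 1 1 : E3)) : r ≤ 40 / 37 := by
  have m0 : (0 : ℂ) ∈ ball (0 : ℂ) 1 := mem_ball_self one_pos
  -- complex partial derivatives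
  set A : Fin 3 → ℂ → ℂ := fun i z => fderiv ℝ (fun w => f w i) z 1 - I * fderiv ℝ (fun w => f w i) z I
    with hA
  have hAn : ∀ i, AnalyticOnNhd ℂ (A i) (ball (0 : ℂ) 1) := fun i z hz =>
    HarmonicAt.analyticAt_complex_partial (h.harmonic i z hz)
  have hAv : ∀ i, ∀ z ∈ ball (0 : ℂ) 1, A i z =
      (((fderiv ℝ f z 1) i : ℝ) : ℂ) - I * (((fderiv ℝ f z I) i : ℝ) : ℂ) := by
    intro i z hz
    simp only [hA]
    rw [fderiv_coord (h.differentiableAt hz), fderiv_coord (h.differentiableAt hz)]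
  have h2' : ∀ z ∈ ball (0 : ℂ) 1, ∀ e : ℂ, (fderiv ℝ f z e) 2 = 0 := by
    intro z hz e
    rw [← fderiv_coord (h.differentiableAt hz)]
    have : (fun w => f w 2) =ᶠ[𝓝 z] fun _ => (0 : ℝ) := by
      filter_upwards [isOpen_ball.mem_nhds hz] with w hw using h2 w hw
    rw [this.fderiv_eq]
    simp
  have hprod : ∀ z ∈ ball (0 : ℂ) 1, (A 0 z + I * A 1 z) * (A 0 z - I * A 1 z) = 0 := by
    intro z hz
    obtain ⟨c1, c2⟩ := h.conf z hz
    have c1' : ‖fderiv ℝ f z (1 : ℂ)‖ ^ 2 = ‖fderiv ℝ f z Complex.I‖ ^ 2 := by rw [c1]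
    rw [EuclideanSpace.norm_sq_eq, EuclideanSpace.norm_sq_eq] at c1'
    rw [PiLp.inner_apply] at c2
    simp only [Fin.sum_univ_three, Real.norm_eq_abs, sq_abs, h2' z hz] at c1'
    simp only [Fin.sum_univ_three, h2' z hz, inner_zero_left, add_zero] at c2
    have c3 : ∀ a b : ℝ, inner ℝ a b = b * a := fun a b => rfl
    rw [c3, c3] at c2
    rw [hAv 0 z hz, hAv 1 z hz]
    apply Complex.ext
    · simp
      nlinarith
    · simp
      nlinarith
  have hI : ∀ z ∈ ball (0 : ℂ) 1, A 0 z - I * A 1 z = 0 := by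
    have an1 : AnalyticOnNhd ℂ (fun z => A 0 z + I * A 1 z) (ball (0 : ℂ) 1) :=
      (hAn 0).add (analyticOnNhd_const.mul (hAn 1))
    have an2 : AnalyticOnNhd ℂ (fun z => A 0 z - I * A 1 z) (ball (0 : ℂ) 1) :=
      (hAn 0).sub (analyticOnNhd_const.mul (hAn 1))
    rcases AnalyticOnNhd.eq_zero_or_eq_zero_of_mul_eq_zero an1 an2 hprod
      (convex_ball _ _).isPreconnected with h3 | h3
    · exfalso
      have := h3 0 m0
      rw [hAv 0 0 m0, hAv 1 0 m0, hx, hy] at this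
      have h4 := congrArg Complex.re this
      simp at h4
      linarith
    · exact h3
  -- the holomorphic map
  set Φ : ℂ → ℂ := fun z => (f z 0 : ℂ) + I * (f z 1 : ℂ) with hΦ
  have hΦd : ∀ z ∈ ball (0 : ℂ) 1, HasFDerivAt Φ ((ofRealCLM.comp (fderiv ℝ (fun w => f w 0) z)) +
      I • (ofRealCLM.comp (fderiv ℝ (fun w => f w 1) z))) z := by
    intro z hz
    have d0 : HasFDerivAt (fun w => f w 0) (fderiv ℝ (fun w => f w 0) z) z :=
      ((h.coord_contDiffAt 0 hz).differentiableAt (by norm_num)).hasFDerivAt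
    have d1 : HasFDerivAt (fun w => f w 1) (fderiv ℝ (fun w => f w 1) z) z :=
      ((h.coord_contDiffAt 1 hz).differentiableAt (by norm_num)).hasFDerivAt
    have e0 := ofRealCLM.hasFDerivAt.comp z d0
    have e1 := (ofRealCLM.hasFDerivAt.comp z d1).const_smul I
    exact e0.add e1
  have hΦv : ∀ z ∈ ball (0 : ℂ) 1, ∀ e : ℂ, fderiv ℝ Φ z e =
      (((fderiv ℝ f z e) 0 : ℝ) : ℂ) + I * (((fderiv ℝ f z e) 1 : ℝ) : ℂ) := by
    intro z hz e
    rw [(hΦd z hz).fderiv, ← fderiv_coord (h.differentiableAt hz),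
      ← fderiv_coord (h.differentiableAt hz)]
    simp
  have hΦc : ∀ z ∈ ball (0 : ℂ) 1, DifferentiableAt ℂ Φ z := by
    intro z hz
    rw [differentiableAt_complex_iff_differentiableAt_real]
    refine ⟨(hΦd z hz).differentiableAt, ?_⟩
    rw [hΦv z hz, hΦv z hz, smul_eq_mul]
    have h3 := hI z hz
    rw [hAv 0 z hz, hAv 1 z hz] at h3
    have h4 := congrArg Complex.re h3
    have h5 := congrArg Complex.im h3
    simp at h4 h5
    apply Complex.ext
    · simp; linarith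
    · simp; linarith
  have hΦ0 : Φ 0 = 0 := by
    simp only [hΦ, h0]
    simp
  have hΦ' : deriv Φ 0 = r := by
    have h3 : fderiv ℝ Φ 0 1 = (r : ℂ) := by
      rw [hΦv 0 m0, hx]
      simp
    rw [← h3, (hΦc 0 m0).fderiv_restrictScalars ℝ]
    simp
  -- Schwarz lemma
  set G : ℂ → ℂ := fun w => (37 / 40) * w + (1 / 20) * w ^ 5 with hG
  have hGd : ∀ w, HasDerivAt G (37 / 40 + (1 / 20) * (5 * w ^ 4)) w := by
    intro w
    have e1 := (hasDerivAt_id w).const_mul (37 / 40 : ℂ)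
    have e2 := (hasDerivAt_pow 5 w).const_mul (1 / 20 : ℂ)
    have e3 := e1.add e2
    refine e3.congr_deriv ?_
    simp
  have hcomp : DifferentiableOn ℂ (fun z => G (Φ z)) (ball (0 : ℂ) 1) := by
    intro z hz
    exact ((hGd (Φ z)).differentiableAt.comp z (hΦc z hz)).differentiableWithinAt
  have hmaps : MapsTo (fun z => G (Φ z)) (ball (0 : ℂ) 1) (closedBall ((fun z => G (Φ z)) 0) 1) := by
    intro z hz
    have e0 : (fun z => G (Φ z)) 0 = 0 := by
      simp [hG, hΦ0]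
    rw [e0, mem_closedBall_zero_iff]
    have h3 : rho (f z) < 0 := h.maps z hz
    unfold rho at h3
    rw [h2 z hz] at h3
    have h4 := DiscPoly.G_bound (sq_nonneg (f z 0)) (sq_nonneg (f z 1)) (by nlinarith)
    have h5 : ‖G (Φ z)‖ ^ 2 ≤ 1 := by
      rw [← Complex.normSq_eq_norm_sq]
      refine le_trans (le_of_eq ?_) h4
      have e1 : G (Φ z) = Φ z * (37 / 40 + 1 / 20 * (Φ z) ^ 4) := by
        simp only [hG]; ring
      have e3 : Φ z = ((f z 0 : ℝ) : ℂ) + ((f z 1 : ℝ) : ℂ) * I := by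
        simp only [hΦ]; ring
      have e2 : 37 / 40 + 1 / 20 * (Φ z) ^ 4 =
          ((37 / 40 + 1 / 20 * ((f z 0) ^ 4 - 6 * (f z 0) ^ 2 * (f z 1) ^ 2 + (f z 1) ^ 4) : ℝ) : ℂ) +
          ((1 / 20 * (4 * (f z 0) ^ 3 * (f z 1) - 4 * (f z 0) * (f z 1) ^ 3) : ℝ) : ℂ) * I := by
        rw [e3]
        push_cast
        have i3 : I ^ 3 = -I := by rw [pow_succ, Complex.I_sq]; ring
        ring_nf
        simp only [i3, Complex.I_pow_four, Complex.I_sq]
        ring
      rw [e1, Complex.normSq_mul, e2, Complex.normSq_add_mul_I, e3, Complex.normSq_add_mul_I]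
      ring
    have := norm_nonneg (G (Φ z))
    nlinarith
  have hS := Complex.norm_deriv_le_one_of_mapsTo_ball hcomp hmaps one_pos
  have hder : deriv (fun z => G (Φ z)) 0 = (37 / 40) * r := by
    have e1 : HasDerivAt Φ (deriv Φ 0) 0 := (hΦc 0 m0).hasDerivAt
    have e2 := (hGd (Φ 0)).comp (0 : ℂ) e1
    have e3 := e2.deriv
    rw [hΦ0, hΦ'] at e3
    refine Eq.trans e3 ?_
    simp
  rw [hder] at hS
  have e4 : ‖(37 / 40 : ℂ) * (r : ℂ)‖ = 37 / 40 * r := by
    rw [norm_mul, Complex.norm_real, Real.norm_of_nonneg hr.le]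
    norm_num
  rw [e4] at hS
  linarith

/-! ### The competitor -/

/-- the Enneper type disc -/
noncomputable def enn (z : ℂ) : E3 := WithLp.toLp 2
  ![13/12 * z.re - 13/144 * (z.re^3 - 3*z.re*z.im^2), 13/12 * z.im + 13/144 * (3*z.re^2*z.im - z.im^3),
    13/24 * (z.re^2 - z.im^2)]

lemma hre (z : ℂ) : HasFDerivAt (fun w : ℂ => w.re) reCLM z := reCLM.hasFDerivAt

lemma him (z : ℂ) : HasFDerivAt (fun w : ℂ => w.im) imCLM z := imCLM.hasFDerivAt

lemma contDiff_re : ContDiff ℝ 2 (fun w : ℂ => w.re) := reCLM.contDiff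

lemma contDiff_im : ContDiff ℝ 2 (fun w : ℂ => w.im) := imCLM.contDiff

lemma enn_contDiff : ContDiff ℝ 2 enn := by
  rw [contDiff_euclidean]
  have h1 := contDiff_re
  have h2 := contDiff_im
  intro i
  fin_cases i
  · exact (contDiff_const.mul h1).sub (contDiff_const.mul ((h1.pow 3).sub
      ((contDiff_const.mul h1).mul (h2.pow 2))))
  · exact (contDiff_const.mul h2).add (contDiff_const.mul (((contDiff_const.mul (h1.pow 2)).mul h2).sub
      (h2.pow 3)))
  · exact contDiff_const.mul ((h1.pow 2).sub (h2.pow 2))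

/-- directional derivatives of maps given by three coordinates -/
lemma fderiv_triple {p0 p1 p2 : ℂ → ℝ} {z e : ℂ} {L0 L1 L2 : ℂ →L[ℝ] ℝ} (h0 : HasFDerivAt p0 L0 z)
    (h1 : HasFDerivAt p1 L1 z) (h2 : HasFDerivAt p2 L2 z) :
    fderiv ℝ (fun w => (WithLp.toLp 2 ![p0 w, p1 w, p2 w] : E3)) z e =
      WithLp.toLp 2 ![L0 e, L1 e, L2 e] := by
  have hd : DifferentiableAt ℝ (fun w => (WithLp.toLp 2 ![p0 w, p1 w, p2 w] : E3)) z := by
    rw [differentiableAt_euclidean]
    intro i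
    fin_cases i
    · exact h0.differentiableAt
    · exact h1.differentiableAt
    · exact h2.differentiableAt
  ext i
  rw [← fderiv_coord hd]
  fin_cases i
  · exact congrArg (fun L : ℂ →L[ℝ] ℝ => L e) h0.fderiv
  · exact congrArg (fun L : ℂ →L[ℝ] ℝ => L e) h1.fderiv
  · exact congrArg (fun L : ℂ →L[ℝ] ℝ => L e) h2.fderiv

lemma enn_fderiv (z e : ℂ) : fderiv ℝ enn z e = WithLp.toLp 2
    ![(13/12 - 13/48 * (z.re^2 - z.im^2)) * e.re + 13/24 * z.re * z.im * e.im,
      13/24 * z.re * z.im * e.re + (13/12 + 13/48 * (z.re^2 - z.im^2)) * e.im,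
      13/12 * z.re * e.re - 13/12 * z.im * e.im] := by
  have h1 := hre z
  have h2 := him z
  have k0 := (h1.const_mul (13/12)).sub (((h1.pow 3).sub
      ((h1.const_mul 3).mul (h2.pow 2))).const_mul (13/144))
  have k1 := (h2.const_mul (13/12)).add (((((h1.pow 2).const_mul 3).mul h2).sub
      (h2.pow 3)).const_mul (13/144))
  have k2 := (((h1.pow 2).sub (h2.pow 2))).const_mul (13/24)
  have := fderiv_triple (e := e) k0 k1 k2
  refine Eq.trans this ?_
  ext i
  fin_cases i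
  · simp
    ring
  · simp
    ring
  · simp
    ring

lemma enn_harm (z : ℂ) : fderiv ℝ (fun w => fderiv ℝ enn w (1 : ℂ)) z (1 : ℂ) +
    fderiv ℝ (fun w => fderiv ℝ enn w Complex.I) z Complex.I = 0 := by
  have h1 := hre z
  have h2 := him z
  simp_rw [enn_fderiv]
  simp only [one_re, one_im, I_re, I_im, mul_one, mul_zero, add_zero, sub_zero, zero_add, zero_sub]
  have a0 := (((h1.pow 2).sub (h2.pow 2)).const_mul (13/48)).const_sub (13/12)
  have a1 := ((h1.const_mul (13/24)).mul h2)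
  have a2 := h1.const_mul (13/12)
  have b1 := (((h1.pow 2).sub (h2.pow 2)).const_mul (13/48)).const_add (13/12)
  have b2 := (h2.const_mul (13/12)).neg
  have A := fderiv_triple (e := (1 : ℂ)) a0 a1 a2
  have B := fderiv_triple (e := Complex.I) a1 b1 b2
  refine (congrArg₂ (· + ·) A B).trans ?_
  ext i
  fin_cases i
  · simp
    ring
  · simp
    ring
  · simp

lemma enn_conf (z : ℂ) : ‖fderiv ℝ enn z (1 : ℂ)‖ = ‖fderiv ℝ enn z Complex.I‖ ∧
    inner ℝ (fderiv ℝ enn z (1 : ℂ)) (fderiv ℝ enn z Complex.I) = 0 := by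
  rw [enn_fderiv, enn_fderiv]
  simp only [one_re, one_im, I_re, I_im, mul_one, mul_zero, add_zero, sub_zero, zero_add, zero_sub]
  constructor
  · rw [EuclideanSpace.norm_eq, EuclideanSpace.norm_eq]
    congr 1
    simp only [Fin.sum_univ_three, Real.norm_eq_abs, sq_abs]
    simp
    ring
  · rw [PiLp.inner_apply]
    have c3 : ∀ a b : ℝ, inner ℝ a b = b * a := fun a b => rfl
    simp only [Fin.sum_univ_three, c3]
    simp
    ring

lemma enn_CH : CH Om enn where
  smooth := enn_contDiff.contDiffOn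
  maps := by
    intro z hz
    rw [mem_ball_zero_iff] at hz
    have h1 : z.re ^ 2 + z.im ^ 2 ≤ 1 := by
      have h2 : ‖z‖ ^ 2 = z.re ^ 2 + z.im ^ 2 := by
        rw [← Complex.normSq_eq_norm_sq, Complex.normSq_apply]; ring
      rw [← h2]
      have := norm_nonneg z
      nlinarith
    have h3 := DiscPoly.disc_bound h1
    show rho (enn z) < 0
    unfold rho enn
    simp only [Matrix.cons_val_zero, Matrix.cons_val_one, Matrix.cons_val]
    linarith
  conf z _ := enn_conf z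
  harm z _ := enn_harm z

lemma enn_zero : enn 0 = 0 := by
  unfold enn
  ext i
  fin_cases i <;> simp

lemma enn_x : fderiv ℝ enn 0 (1 : ℂ) = (13/12 : ℝ) • (EuclideanSpace.single 0 1 : E3) := by
  rw [enn_fderiv]
  ext i
  fin_cases i <;> simp

lemma enn_y : fderiv ℝ enn 0 Complex.I = (13/12 : ℝ) • (EuclideanSpace.single 1 1 : E3) := by
  rw [enn_fderiv]
  ext i
  fin_cases i <;> simp

/-! ### The reflection -/

/-- the reflection `t ↦ -t` -/
noncomputable def R : E3 ≃ₗᵢ[ℝ] E3 :=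
  LinearIsometryEquiv.piLpCongrRight 2 fun i : Fin 3 =>
    if i = 2 then LinearIsometryEquiv.neg ℝ else LinearIsometryEquiv.refl ℝ ℝ

lemma R_apply (x : E3) (i : Fin 3) : R x i = if i = 2 then -(x i) else x i := by
  unfold R
  simp only [LinearIsometryEquiv.piLpCongrRight_apply, PiLp.toLp_apply]
  split_ifs <;> simp

lemma R_fderiv (f : ℂ → E3) (z e : ℂ) :
    fderiv ℝ (fun w => R (f w)) z e = R (fderiv ℝ f z e) := by
  have : fderiv ℝ (R ∘ f) z = (R : E3 →L[ℝ] E3).comp (fderiv ℝ f z) :=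
    LinearIsometryEquiv.comp_fderiv R
  have h2 : (fun w => R (f w)) = R ∘ f := rfl
  rw [h2, this]
  rfl

lemma R_CH {f : ℂ → E3} (h : CH Om f) : CH Om (fun z => R (f z)) where
  smooth := R.contDiff.comp_contDiffOn h.smooth
  maps := by
    intro z hz
    have h1 : rho (f z) < 0 := h.maps z hz
    show rho (R (f z)) < 0
    unfold rho at *
    simp only [R_apply]
    simp
    nlinarith
  conf := by
    intro z hz
    rw [R_fderiv, R_fderiv, R.norm_map, R.norm_map, R.inner_map_map]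
    exact h.conf z hz
  harm := by
    intro z hz
    simp_rw [R_fderiv]
    rw [← map_add, h.harm z hz, map_zero]

lemma R_single0 (r : ℝ) : R (r • (EuclideanSpace.single 0 1 : E3)) = r • EuclideanSpace.single 0 1 := by
  ext i
  rw [R_apply]
  fin_cases i <;> simp

lemma R_single1 (r : ℝ) : R (r • (EuclideanSpace.single 1 1 : E3)) = r • EuclideanSpace.single 1 1 := by
  ext i
  rw [R_apply]
  fin_cases i <;> simp

/-! ### The domain -/

lemma rho_contDiff : ContDiff ℝ ((⊤ : ℕ∞) : WithTop ℕ∞) rho := by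
  have h : ∀ i : Fin 3, ContDiff ℝ ((⊤ : ℕ∞) : WithTop ℕ∞) (fun x : E3 => x i) := fun i =>
    (EuclideanSpace.proj i : E3 →L[ℝ] ℝ).contDiff
  exact ((((h 0).pow 4).add ((h 1).pow 4)).add (contDiff_const.mul ((h 2).pow 4))).sub contDiff_const

lemma Om_open : IsOpen Om := isOpen_lt rho_contDiff.continuous continuous_const

lemma Om_bounded : Bornology.IsBounded Om := by
  rw [Metric.isBounded_iff_subset_closedBall 0]
  refine ⟨3, fun x hx => ?_⟩
  have hx' : rho x < 0 := hx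
  unfold rho at hx'
  rw [mem_closedBall_zero_iff, EuclideanSpace.norm_eq]
  apply Real.sqrt_le_iff.2
  refine ⟨by norm_num, ?_⟩
  simp only [Fin.sum_univ_three, Real.norm_eq_abs, sq_abs]
  nlinarith [sq_nonneg (x 0 ^ 2 - 1), sq_nonneg (x 1 ^ 2 - 1), sq_nonneg (x 2 ^ 2 - 2)]

lemma Om_convex : Convex ℝ Om := by
  have h4 : ConvexOn ℝ univ (fun t : ℝ => t ^ 4) := Even.convexOn_pow (by decide)
  have hi : ∀ i : Fin 3, ConvexOn ℝ univ (fun x : E3 => x i ^ 4) := fun i => by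
    have := h4.comp_linearMap (EuclideanSpace.proj i : E3 →L[ℝ] ℝ).toLinearMap
    rw [preimage_univ] at this
    exact this
  have hsum : ConvexOn ℝ univ rho := by
    have h1 := ((hi 0).add (hi 1)).add ((hi 2).smul (by norm_num : (0:ℝ) ≤ 1/4))
    have h2 := h1.add_const (-1 : ℝ)
    refine h2.congr fun x _ => ?_
    unfold rho
    simp
    ring
  have := hsum.convex_lt 0
  simpa [Om] using this

lemma rho_fderiv (x : E3) : fderiv ℝ rho x x = 4 * (x 0 ^ 4 + x 1 ^ 4 + 1/4 * x 2 ^ 4) := by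
  have h : ∀ i : Fin 3, HasFDerivAt (fun x : E3 => x i) (EuclideanSpace.proj i : E3 →L[ℝ] ℝ) x :=
    fun i => (EuclideanSpace.proj i : E3 →L[ℝ] ℝ).hasFDerivAt
  have h1 := ((((h 0).pow 4).add ((h 1).pow 4)).add (((h 2).pow 4).const_mul (1/4))).sub_const 1
  have h2 : fderiv ℝ rho x = _ := h1.fderiv
  rw [h2]
  simp
  ring

lemma rho_regular {x : E3} (hx : x ∈ frontier Om) : fderiv ℝ rho x ≠ 0 := by
  intro h
  have h1 := rho_fderiv x
  rw [h] at h1
  simp only [zero_apply] at h1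
  have h2 : rho x < 0 := by
    unfold rho
    linarith
  rw [Om_open.frontier_eq] at hx
  exact hx.2 h2

lemma zero_mem_Om : (0 : E3) ∈ Om := by
  show rho 0 < 0
  unfold rho
  simp

end Pool.Agent.R220.Disc
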