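import Mathlib

set_option autoImplicit false

/-!
# Polynomial inequalities for the extremal disc example (MP_a50f86_an)
-/

namespace Pool.Agent.R220.DiscPoly

/-- one-variable inequality behind the Schwarz bound -/
lemma one_var {X : ℝ} (h0 : 0 ≤ X) (h2 : X ^ 2 ≤ 2) :
    X * ((37 / 40) ^ 2 + 2 * (37 / 40) * (1 / 20) * (4 - 3 * X ^ 2) + (1 / 20) ^ 2 * X ^ 4) ≤ 1 := by
  have hX : X ≤ 3 / 2 := by nlinarith
  nlinarith [mul_nonneg h0 (sq_nonneg (X - 27 / 22)), sq_nonneg (X - 27 / 22),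
    mul_nonneg (mul_nonneg h0 (sq_nonneg (X - 27 / 22))) (sub_nonneg.2 hX),
    mul_nonneg (mul_nonneg h0 (sq_nonneg (X - 27 / 22))) (mul_nonneg h0 (sub_nonneg.2 hX)),
    mul_nonneg (sq_nonneg (X - 27 / 22)) (sub_nonneg.2 hX),
    mul_nonneg (mul_nonneg h0 (sq_nonneg (X - 27 / 22))) (sub_nonneg.2 h2)]

/-- `|G(w)|² ≤ 1` for `w = x + i y`, `x⁴ + y⁴ ≤ 1`, where `G(w) = (37/40) w + (1/20) w⁵`;
here `a = x²`, `b = y²`. -/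
lemma G_bound {a b : ℝ} (ha : 0 ≤ a) (hb : 0 ≤ b) (h : a ^ 2 + b ^ 2 ≤ 1) :
    (a + b) * ((37 / 40) ^ 2 + 2 * (37 / 40) * (1 / 20) * (a ^ 2 - 6 * a * b + b ^ 2) +
      (1 / 20) ^ 2 * (a + b) ^ 4) ≤ 1 := by
  have h1 : (a + b) ^ 2 ≤ 2 := by nlinarith [sq_nonneg (a - b)]
  have h2 := one_var (add_nonneg ha hb) h1
  have h3 : a ^ 2 - 6 * a * b + b ^ 2 ≤ 4 - 3 * (a + b) ^ 2 := by nlinarith
  have h4 : 0 ≤ a + b := add_nonneg ha hb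
  nlinarith [mul_nonneg h4 (sub_nonneg.2 h3)]

lemma Fplus {P : ℝ} (h0 : 0 ≤ P) (h1 : P ≤ 1) :
    (3 * ((P + P^3/144)^2 - (P + P^3/144) * P^2/3 + P^4/36) + P^2 - P^3/3 + P^4/24 + P^5/432
      + P^6/20736)/4 + 4 * P^4/256 ≤ 29/40 := by
  have e2 : P^2 ≤ P := by nlinarith
  have e3 : P^3 ≤ P^2 := by nlinarith
  have e4 : P^4 ≤ P^3 := by nlinarith [pow_nonneg h0 3]
  have e5 : P^5 ≤ P^4 := by nlinarith [pow_nonneg h0 4]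
  have e6 : P^6 ≤ P^5 := by nlinarith [pow_nonneg h0 5]
  have p3 := pow_nonneg h0 3
  have p4 := pow_nonneg h0 4
  have p5 := pow_nonneg h0 5
  have p6 := pow_nonneg h0 6
  nlinarith

lemma hbound {P Q : ℝ} (h0 : 0 ≤ P) (h1 : P ≤ 1) (hQ : |Q| ≤ P^2) :
    (3 * (P + P^3/144 - Q/6)^2 + (Q - P^3/3 + P^2*Q/24 - P*(2*Q^2-P^4)/432 +
      (4*Q^3-3*Q*P^4)/20736))/4 + (P^2+Q)^2/256 ≤ 29/40 := by
  obtain ⟨q1, q2⟩ := abs_le.1 hQ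
  have hQ2 : Q^2 ≤ P^4 := by nlinarith
  have t1 : -(P*(2*Q^2-P^4)) ≤ P^5 := by nlinarith [mul_nonneg h0 (sq_nonneg Q)]
  have t2 : 4*Q^3-3*Q*P^4 ≤ P^6 := by
    nlinarith [mul_nonneg (sub_nonneg.2 q2) (sq_nonneg (P^2+2*Q))]
  have hc : 0 ≤ (-(P + P^3/144) + 1 + P^2/24)/4 + P^2/128 := by
    nlinarith [mul_nonneg (pow_nonneg h0 2) (sub_nonneg.2 h1)]
  have t3 := mul_le_mul_of_nonneg_left q2 hc
  have := Fplus h0 h1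
  nlinarith

/-- The Enneper type disc `(x, y) ↦ (X₀, X₁, X₂)` lies in `x⁴ + y⁴ + t⁴/4 < 1`. -/
lemma disc_bound {x y : ℝ} (h : x ^ 2 + y ^ 2 ≤ 1) :
    (13/12 * x - 13/144 * (x^3 - 3*x*y^2))^4 + (13/12 * y + 13/144 * (3*x^2*y - y^3))^4 +
      1/4 * (13/24 * (x^2 - y^2))^4 < 1 := by
  have hP0 : 0 ≤ x^2 + y^2 := by positivity
  have hQ : |x^4 - 6*x^2*y^2 + y^4| ≤ (x^2+y^2)^2 := by
    rw [abs_le]
    constructor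
    · nlinarith [sq_nonneg (x^2 - y^2)]
    · nlinarith [mul_nonneg (sq_nonneg x) (sq_nonneg y)]
  have h1 := hbound hP0 h hQ
  have e : (13/12 * x - 13/144 * (x^3 - 3*x*y^2))^4 + (13/12 * y + 13/144 * (3*x^2*y - y^3))^4 +
      1/4 * (13/24 * (x^2 - y^2))^4 = 28561/20736 *
      ((3 * ((x^2+y^2) + (x^2+y^2)^3/144 - (x^4 - 6*x^2*y^2 + y^4)/6)^2 +
      ((x^4 - 6*x^2*y^2 + y^4) - (x^2+y^2)^3/3 + (x^2+y^2)^2*(x^4 - 6*x^2*y^2 + y^4)/24 -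
      (x^2+y^2)*(2*(x^4 - 6*x^2*y^2 + y^4)^2-(x^2+y^2)^4)/432 +
      (4*(x^4 - 6*x^2*y^2 + y^4)^3-3*(x^4 - 6*x^2*y^2 + y^4)*(x^2+y^2)^4)/20736))/4 +
      ((x^2+y^2)^2+(x^4 - 6*x^2*y^2 + y^4))^2/256) := by
    ring
  rw [e]
  linarith

end Pool.Agent.R220.DiscPoly
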