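import Mathlib
set_option autoImplicit false
open Filter Topology

namespace Pool.Agent.R220.FreqHyp
noncomputable section

/-! ### Positions -/

/-- 2-adic valuation. -/
def v (m : ℕ) : ℕ := padicValNat 2 m

/-- partial sums of the valuation. -/
def Sv (m : ℕ) : ℕ := ∑ i ∈ Finset.range m, v i

/-- position of the `m`-th pattern. -/
def p (m : ℕ) : ℕ := m + 2 * Sv m + v m

lemma Sv_succ (m : ℕ) : Sv (m + 1) = Sv m + v m := Finset.sum_range_succ _ _

lemma Sv_eq (m : ℕ) : Sv (m + 1) = padicValNat 2 m.factorial := by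
  induction m with
  | zero => simp [Sv, v]
  | succ m ih =>
    rw [Sv_succ, ih, Nat.factorial_succ, padicValNat.mul (by omega) (Nat.factorial_ne_zero m)]
    unfold v
    ring

lemma Sv_le (m : ℕ) : Sv m ≤ m := by
  cases m with
  | zero => simp [Sv]
  | succ m =>
    rw [Sv_eq]
    have h := sub_one_mul_padicValNat_factorial (p := 2) m
    simp only [Nat.add_one_sub_one, one_mul] at h
    omega

lemma v_le (m : ℕ) : v m ≤ m := by
  unfold v
  have h1 := padicValNat_le_nat_log (p := 2) m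
  have h2 := Nat.log_le_self 2 m
  omega

lemma p_le (m : ℕ) : p m ≤ 4 * m := by
  have h1 := Sv_le m
  have h2 := v_le m
  unfold p
  omega

lemma Sv_mono_add {m m' : ℕ} (h : m < m') : Sv m + v m ≤ Sv m' := by
  rw [← Sv_succ]
  exact Finset.sum_le_sum_of_subset (Finset.range_subset_range.2 h)

lemma p_sep {m m' : ℕ} (h : m < m') : p m + (m' - m) + v m + v m' ≤ p m' := by
  have h1 := Sv_mono_add h
  unfold p
  omega

lemma p_ge (m : ℕ) : m + v m ≤ p m := by
  unfold p
  omega

lemma p_strictMono : StrictMono p := by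
  intro a b h
  have := p_sep h
  omega

/-! ### The space `c₀` and the operator -/

/-- `c₀(ℕ, ℝ)`. -/
abbrev X : Type := ZeroAtInftyContinuousMap ℕ ℝ

lemma norm_le_iff (f : X) {C : ℝ} (hC : 0 ≤ C) : ‖f‖ ≤ C ↔ ∀ r, ‖f r‖ ≤ C := by
  rw [← ZeroAtInftyContinuousMap.norm_toBCF_eq_norm, BoundedContinuousFunction.norm_le hC]
  rfl

lemma apply_le_norm (f : X) (r : ℕ) : ‖f r‖ ≤ ‖f‖ :=
  (norm_le_iff f (norm_nonneg _)).1 le_rfl r

/-- successor as a cocompact map. -/
def succMap : CocompactMap ℕ ℕ where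
  toFun := Nat.succ
  continuous_toFun := continuous_of_discreteTopology
  cocompact_tendsto' := by
    rw [Filter.cocompact_eq_cofinite]
    exact Nat.succ_injective.tendsto_cofinite

/-- twice the backward shift. -/
def T : X →L[ℝ] X :=
  ((2 : ℝ) • ZeroAtInftyContinuousMap.compLinearMap (R := ℝ) (δ := ℝ) succMap).mkContinuous 2 (by
    intro f
    rw [norm_le_iff _ (by positivity)]
    intro r
    have h : ((2 : ℝ) • ZeroAtInftyContinuousMap.compLinearMap (R := ℝ) (δ := ℝ) succMap) f r =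
      2 * f (r + 1) := rfl
    rw [h, norm_mul, Real.norm_of_nonneg (by norm_num)]
    exact mul_le_mul_of_nonneg_left (apply_le_norm f _) (by norm_num))

lemma T_apply (f : X) (n : ℕ) : T f n = 2 * f (n + 1) := rfl

/-- half of the forward shift. -/
def S (f : X) : X where
  toFun n := match n with
    | 0 => 0
    | n + 1 => f n / 2
  continuous_toFun := continuous_of_discreteTopology
  zero_at_infty' := by
    rw [Filter.cocompact_eq_cofinite, Nat.cofinite_eq_atTop]
    rw [← tendsto_add_atTop_iff_nat 1]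
    have h := f.zero_at_infty'
    rw [Filter.cocompact_eq_cofinite, Nat.cofinite_eq_atTop] at h
    have h2 := h.div_const 2
    rw [zero_div] at h2
    exact h2

lemma S_apply_zero (f : X) : S f 0 = 0 := rfl
lemma S_apply_succ (f : X) (n : ℕ) : S f (n + 1) = f n / 2 := rfl

lemma T_S (f : X) : T (S f) = f := by
  ext n
  rw [T_apply, S_apply_succ]
  ring

lemma norm_S_le (f : X) : ‖S f‖ ≤ ‖f‖ / 2 := by
  rw [norm_le_iff _ (by positivity)]
  intro n
  cases n with
  | zero => rw [S_apply_zero, norm_zero]; positivity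
  | succ n =>
    rw [S_apply_succ, norm_div, Real.norm_of_nonneg (show (0 : ℝ) ≤ 2 by norm_num)]
    exact div_le_div_of_nonneg_right (apply_le_norm f n) (by norm_num)

lemma norm_S_iter_le (k : ℕ) (f : X) : ‖S^[k] f‖ ≤ ‖f‖ / 2 ^ k := by
  induction k with
  | zero => simp
  | succ k ih =>
    rw [Function.iterate_succ_apply']
    refine (norm_S_le _).trans ?_
    rw [pow_succ, ← div_div]
    exact div_le_div_of_nonneg_right ih (by norm_num)

lemma T_iter_S_iter (k : ℕ) (f : X) : T^[k] (S^[k] f) = f := by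
  induction k generalizing f with
  | zero => rfl
  | succ k ih =>
    rw [Function.iterate_succ_apply, Function.iterate_succ_apply', T_S]
    exact ih f

lemma T_iter_S_iter_of_le {n q : ℕ} (h : n ≤ q) (f : X) : T^[n] (S^[q] f) = S^[q - n] f := by
  have : q = n + (q - n) := by omega
  conv_lhs => rw [this, Function.iterate_add_apply]
  exact T_iter_S_iter n _

lemma T_iter_S_iter_of_ge {n q : ℕ} (h : q ≤ n) (f : X) : T^[n] (S^[q] f) = T^[n - q] f := by
  have : n = (n - q) + q := by omega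
  conv_lhs => rw [this, Function.iterate_add_apply, T_iter_S_iter]

lemma T_iter_apply (k : ℕ) (f : X) (n : ℕ) : (T^[k] f) n = 2 ^ k * f (n + k) := by
  induction k generalizing f with
  | zero => simp
  | succ k ih =>
    rw [Function.iterate_succ_apply, ih, T_apply, pow_succ, add_assoc n k 1]
    ring

lemma T_iter_zero (k : ℕ) : T^[k] (0 : X) = 0 := by
  ext n
  rw [T_iter_apply]
  simp

/-! ### Dense sequence of patterns -/

/-- finitely supported vector from a list. -/
def ofList (l : List ℚ) : X where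
  toFun n := ((l.getD n 0 : ℚ) : ℝ)
  continuous_toFun := continuous_of_discreteTopology
  zero_at_infty' := by
    rw [Filter.cocompact_eq_cofinite, Nat.cofinite_eq_atTop]
    apply tendsto_const_nhds.congr'
    filter_upwards [eventually_ge_atTop l.length] with n hn
    rw [List.getD_eq_default _ _ hn]
    simp

lemma ofList_apply (l : List ℚ) (n : ℕ) : ofList l n = ((l.getD n 0 : ℚ) : ℝ) := rfl

lemma T_iter_ofList (l : List ℚ) {k : ℕ} (hk : l.length ≤ k) : T^[k] (ofList l) = 0 := by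
  ext n
  rw [T_iter_apply, ofList_apply, List.getD_eq_default _ _ (by omega)]
  simp

lemma ofList_dense (f : X) {ε : ℝ} (hε : 0 < ε) : ∃ l : List ℚ, ‖ofList l - f‖ ≤ ε := by
  have h := f.zero_at_infty'
  rw [Filter.cocompact_eq_cofinite, Nat.cofinite_eq_atTop] at h
  obtain ⟨N, hN⟩ := (Metric.tendsto_atTop.1 h) ε hε
  have hq : ∀ n : ℕ, ∃ q : ℚ, |(q : ℝ) - f n| < ε := by
    intro n
    obtain ⟨q, hq⟩ := exists_rat_near (f n) hε
    exact ⟨q, by rw [abs_sub_comm]; exact hq⟩
  choose q hq using hq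
  refine ⟨(List.range N).map q, ?_⟩
  rw [norm_le_iff _ hε.le]
  intro n
  rw [ZeroAtInftyContinuousMap.sub_apply, ofList_apply]
  by_cases hn : n < N
  · rw [List.getD_eq_getElem _ _ (by simpa using hn)]
    simp only [List.getElem_map, List.getElem_range]
    exact (hq n).le
  · rw [List.getD_eq_default _ _ (by simpa using hn)]
    have := hN n (not_lt.1 hn)
    rw [dist_eq_norm] at this
    simp only [Rat.cast_zero, zero_sub, norm_neg]
    simp only [sub_zero] at this
    exact this.le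

/-- enumeration of finite rational lists. -/
def en : List ℚ ≃ ℕ := Denumerable.eqv (List ℚ)

/-- The patterns. -/
def y (k : ℕ) : X :=
  if (en.symm (Nat.unpair k).1).length ≤ k ∧
    ‖ofList (en.symm (Nat.unpair k).1)‖ ≤ 2 ^ k then
    ofList (en.symm (Nat.unpair k).1) else 0

lemma norm_y_le (k : ℕ) : ‖y k‖ ≤ 2 ^ k := by
  unfold y
  split_ifs with h
  · exact h.2
  · rw [norm_zero]; positivity

lemma T_iter_y {k n : ℕ} (h : k ≤ n) : T^[n] (y k) = 0 := by
  unfold y
  split_ifs with h2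
  · exact T_iter_ofList _ (h2.1.trans h)
  · exact T_iter_zero _

lemma y_dense (U : Set X) (hU : IsOpen U) (hne : U.Nonempty) :
    ∃ k : ℕ, ∀ z : X, ‖z - y k‖ ≤ 1 / 2 ^ k → z ∈ U := by
  obtain ⟨f, hf⟩ := hne
  obtain ⟨r, hr, hball⟩ := Metric.isOpen_iff.1 hU f hf
  obtain ⟨l, hl⟩ := ofList_dense f (half_pos hr)
  -- choose a large `k` with `(unpair k).1 = encode l`
  obtain ⟨j2, hj2⟩ := exists_pow_lt_of_lt_one (half_pos hr) (show (1 / 2 : ℝ) < 1 by norm_num)
  obtain ⟨j3, hj3⟩ := pow_unbounded_of_one_lt ‖ofList l‖ (show (1 : ℝ) < 2 by norm_num)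
  set j := l.length + j2 + j3 with hj
  set k := Nat.pair (en l) j with hk
  have hkj : j ≤ k := Nat.right_le_pair _ _
  have hun : (Nat.unpair k).1 = en l := by rw [hk, Nat.unpair_pair]
  have hl' : en.symm (Nat.unpair k).1 = l := by
    rw [hun, Equiv.symm_apply_apply]
  have hyk : y k = ofList l := by
    unfold y
    rw [hl', if_pos]
    refine ⟨by omega, ?_⟩
    refine hj3.le.trans ?_
    exact pow_le_pow_right₀ (by norm_num) (by omega)
  refine ⟨k, fun z hz => ?_⟩
  apply hball
  rw [hyk] at hz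
  rw [Metric.mem_ball, dist_eq_norm]
  have h1 : (1 : ℝ) / 2 ^ k ≤ (1 / 2) ^ j2 := by
    rw [one_div_pow]
    apply one_div_le_one_div_of_le (by positivity)
    exact pow_le_pow_right₀ (by norm_num) (by omega)
  calc ‖z - f‖ = ‖(z - ofList l) + (ofList l - f)‖ := by rw [sub_add_sub_cancel]
    _ ≤ ‖z - ofList l‖ + ‖ofList l - f‖ := norm_add_le _ _
    _ < r / 2 + r / 2 := by linarith
    _ = r := by ring

/-! ### The vector -/

/-- the `m`-th summand. -/
def term (m : ℕ) : X := if Nat.log 4 m % 3 = 2 then S^[p m] (y (v m)) else 0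

lemma norm_T_iter_term_le {n m : ℕ} (h : n ≤ p m) :
    ‖T^[n] (term m)‖ ≤ 2 ^ v m / 2 ^ (p m - n) := by
  unfold term
  split_ifs with hm
  · rw [T_iter_S_iter_of_le h]
    refine (norm_S_iter_le _ _).trans ?_
    exact div_le_div_of_nonneg_right (norm_y_le _) (by positivity)
  · rw [T_iter_zero, norm_zero]; positivity

lemma T_iter_term_eq_zero {n m : ℕ} (h : p m + v m ≤ n) : T^[n] (term m) = 0 := by
  unfold term
  split_ifs with hm
  · rw [T_iter_S_iter_of_ge (by omega)]
    exact T_iter_y (by omega)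
  · exact T_iter_zero _

lemma norm_term_le (m : ℕ) : ‖term m‖ ≤ (1 / 2) ^ m := by
  have h := norm_T_iter_term_le (n := 0) (m := m) (Nat.zero_le _)
  rw [Function.iterate_zero, id, Nat.sub_zero] at h
  refine h.trans ?_
  rw [div_le_iff₀ (by positivity), one_div_pow, div_mul_eq_mul_div, one_mul,
    le_div_iff₀ (by positivity), ← pow_add]
  apply pow_le_pow_right₀ (by norm_num)
  have := p_ge m
  omega

lemma summable_term : Summable term :=
  Summable.of_norm_bounded (g := fun m : ℕ => ((1 : ℝ) / 2) ^ m) summable_geometric_two norm_term_le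

/-- the frequently hypercyclic vector. -/
def x : X := ∑' m, term m

lemma T_iter_eq (n : ℕ) (f : X) : T^[n] f = (T ^ n) f := by
  induction n with
  | zero => rfl
  | succ n ih => rw [Function.iterate_succ_apply', ih, pow_succ']; rfl

lemma summable_T_iter (n : ℕ) : Summable (fun m => T^[n] (term m)) := by
  simp only [T_iter_eq]
  exact summable_term.mapL _

lemma T_iter_x (n : ℕ) : T^[n] x = ∑' m, T^[n] (term m) := by
  simp only [T_iter_eq]
  exact (T ^ n).map_tsum summable_term

/-- tail estimate -/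
lemma tail_le (n k : ℕ) (a : ℝ) (h : ∀ j : ℕ, ‖T^[n] (term (j + k))‖ ≤ a / 2 / 2 ^ j) :
    ‖∑' j : ℕ, T^[n] (term (j + k))‖ ≤ a :=
  tsum_of_norm_bounded (hasSum_geometric_two' a) h

lemma approx {m : ℕ} (hm : Nat.log 4 m % 3 = 2) : ‖T^[p m] x - y (v m)‖ ≤ 1 / 2 ^ v m := by
  have h1 : T^[p m] x = (∑ i ∈ Finset.range (m + 1), T^[p m] (term i)) +
      ∑' j : ℕ, T^[p m] (term (j + (m + 1))) := by
    rw [T_iter_x, (summable_T_iter (p m)).sum_add_tsum_nat_add (m + 1)]
  have h2 : ∑ i ∈ Finset.range (m + 1), T^[p m] (term i) = y (v m) := by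
    rw [Finset.sum_range_succ, Finset.sum_eq_zero, zero_add]
    · unfold term
      rw [if_pos hm]
      exact T_iter_S_iter _ _
    · intro i hi
      apply T_iter_term_eq_zero
      have := p_sep (Finset.mem_range.1 hi)
      omega
  rw [h1, h2, add_sub_cancel_left]
  apply tail_le
  intro j
  have hsep := p_sep (show m < j + (m + 1) by omega)
  refine (norm_T_iter_term_le (by omega)).trans ?_
  rw [div_div, div_div, div_le_div_iff₀ (by positivity) (by positivity), one_mul, ← pow_succ',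
    ← pow_add, ← pow_add]
  apply pow_le_pow_right₀ (by norm_num)
  omega

lemma window {j n : ℕ} (h1 : p (4 ^ (3 * j)) ≤ n) (h2 : n ≤ 2 * p (4 ^ (3 * j))) :
    ‖T^[n] x‖ ≤ 1 := by
  set N := 4 ^ (3 * j) with hN
  have hN1 : 1 ≤ N := Nat.one_le_pow _ _ (by norm_num)
  have hp := p_le N
  have e1 : T^[n] x = (∑ i ∈ Finset.range (16 * N), T^[n] (term i)) +
      ∑' i : ℕ, T^[n] (term (i + 16 * N)) := by
    rw [T_iter_x, (summable_T_iter n).sum_add_tsum_nat_add (16 * N)]
  have e2 : ∑ i ∈ Finset.range (16 * N), T^[n] (term i) = 0 := by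
    apply Finset.sum_eq_zero
    intro i hi
    have hi' := Finset.mem_range.1 hi
    by_cases hiN : i < N
    · apply T_iter_term_eq_zero
      have := p_sep hiN
      omega
    · have hlog1 : 3 * j ≤ Nat.log 4 i := by
        apply Nat.le_log_of_pow_le (by norm_num)
        rw [← hN]; omega
      have hlog2 : Nat.log 4 i < 3 * j + 2 := by
        apply Nat.log_lt_of_lt_pow (by omega)
        rw [pow_add, ← hN]; omega
      have : ¬ Nat.log 4 i % 3 = 2 := by omega
      unfold term
      rw [if_neg this]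
      exact T_iter_zero _
  rw [e1, e2, zero_add]
  apply tail_le
  intro i
  have hge := p_ge (i + 16 * N)
  refine (norm_T_iter_term_le (by omega)).trans ?_
  rw [div_div, div_le_div_iff₀ (by positivity) (by positivity), one_mul, ← pow_succ', ← pow_add]
  apply pow_le_pow_right₀ (by norm_num)
  omega

/-! ### Counting -/

lemma v_eq {k e i : ℕ} (h : k + 1 ≤ e) : v (2 ^ e + 2 ^ k * (2 * i + 1)) = k := by
  have h1 : 2 ^ e + 2 ^ k * (2 * i + 1) = 2 ^ k * (2 * (2 ^ (e - k - 1) + i) + 1) := by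
    have : 2 ^ e = 2 ^ k * (2 * 2 ^ (e - k - 1)) := by
      rw [← pow_succ', ← pow_add]
      congr 1
      omega
    rw [this]
    ring
  unfold v
  rw [h1, padicValNat.mul (by positivity) (by omega), padicValNat.prime_pow,
    padicValNat.eq_zero_of_not_dvd (by omega), add_zero]

lemma freq (U : Set X) (hU : IsOpen U) (hne : U.Nonempty) :
    ∃ δ : ℝ, 0 < δ ∧ ∀ᶠ n : ℕ in Filter.atTop,
      δ * (n : ℝ) ≤ (({k : ℕ | k < n ∧ (⇑T)^[k] x ∈ U}.ncard : ℕ) : ℝ) := by
  obtain ⟨k, hk⟩ := y_dense U hU hne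
  refine ⟨1 / (4 ^ 5 * 2 ^ (k + 1)), by positivity, ?_⟩
  filter_upwards [eventually_ge_atTop (4 ^ 5 * 2 ^ (k + 1))] with n hn
  have hn0 : n ≠ 0 := by
    have : 0 < 4 ^ 5 * 2 ^ (k + 1) := by positivity
    omega
  set L := Nat.log 4 n with hL
  have hL4 : 4 ≤ L := by
    apply Nat.le_log_of_pow_le (by norm_num)
    refine le_trans ?_ hn
    have : 1 ≤ 2 ^ (k + 1) := Nat.one_le_two_pow
    omega
  set j := (L - 4) / 3 with hj
  have hlow : 4 ^ (3 * j + 4) ≤ n := by
    refine le_trans ?_ (Nat.pow_log_le_self 4 hn0)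
    exact Nat.pow_le_pow_right (by norm_num) (by omega)
  have hhigh : n < 4 ^ (3 * j + 7) := by
    refine lt_of_lt_of_le (Nat.lt_pow_succ_log_self (b := 4) (by norm_num) n) ?_
    exact Nat.pow_le_pow_right (by norm_num) (by omega)
  set Q := 4 ^ (3 * j + 2) with hQ
  have hQ2 : Q = 2 ^ (6 * j + 4) := by
    rw [hQ, show (4 : ℕ) = 2 ^ 2 by norm_num, ← pow_mul]
    congr 1
    ring
  have hn5 : n < 4 ^ 5 * Q := by
    rw [hQ, ← pow_add]
    refine lt_of_lt_of_le hhigh ?_
    exact Nat.pow_le_pow_right (by norm_num) (by omega)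
  have hkQ : 2 ^ (k + 1) < 2 ^ (6 * j + 4) := by
    rw [← hQ2]
    have := lt_of_le_of_lt hn hn5
    exact Nat.lt_of_mul_lt_mul_left this
  have hke : k + 1 < 6 * j + 4 := (Nat.pow_lt_pow_iff_right (by norm_num)).1 hkQ
  set c := 2 ^ (6 * j + 4 - (k + 1)) with hc
  have hcQ : 2 ^ (k + 1) * c = Q := by
    rw [hc, hQ2, ← pow_add]
    congr 1
    omega
  set mm : ℕ → ℕ := fun i => Q + 2 ^ k * (2 * i + 1) with hmm
  have hvm : ∀ i, v (mm i) = k := by
    intro i
    simp only [hmm]
    rw [hQ2]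
    exact v_eq hke.le
  have hlt : ∀ i, i < c → mm i < 2 * Q := by
    intro i hi
    simp only [hmm]
    have h1 : 2 ^ k * (2 * i + 1) < 2 ^ (k + 1) * c := by
      rw [pow_succ, mul_assoc]
      apply Nat.mul_lt_mul_of_pos_left _ (by positivity)
      omega
    omega
  have hlog : ∀ i, i < c → Nat.log 4 (mm i) % 3 = 2 := by
    intro i hi
    have h1 : Nat.log 4 (mm i) = 3 * j + 2 := by
      rw [Nat.log_eq_iff (Or.inr ⟨by norm_num, by simp only [hmm]; positivity⟩)]
      refine ⟨by simp only [hmm]; omega, ?_⟩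
      have := hlt i hi
      rw [pow_succ, ← hQ]
      omega
    rw [h1]
    omega
  have hinj : Function.Injective (fun i => p (mm i)) := by
    intro a b hab
    have h1 := p_strictMono.injective hab
    simp only [hmm] at h1
    have h2 : 2 ^ k * (2 * a + 1) = 2 ^ k * (2 * b + 1) := by omega
    have h3 := Nat.eq_of_mul_eq_mul_left (by positivity) h2
    omega
  have hsub : (((Finset.range c).image (fun i => p (mm i)) : Finset ℕ) : Set ℕ) ⊆
      {k : ℕ | k < n ∧ (⇑T)^[k] x ∈ U} := by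
    intro a ha
    rw [Finset.mem_coe, Finset.mem_image] at ha
    obtain ⟨i, hi, rfl⟩ := ha
    have hi' := Finset.mem_range.1 hi
    refine ⟨?_, ?_⟩
    · have h1 := p_le (mm i)
      have h2 := hlt i hi'
      have h3 : 4 ^ (3 * j + 4) = 16 * Q := by rw [hQ]; ring
      omega
    · apply hk
      rw [← hvm i]
      exact approx (hlog i hi')
  have hfin : {k : ℕ | k < n ∧ (⇑T)^[k] x ∈ U}.Finite :=
    (Set.finite_lt_nat n).subset (fun a ha => ha.1)
  have hcard := Set.ncard_le_ncard hsub hfin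
  rw [Set.ncard_coe_finset, Finset.card_image_of_injective _ hinj, Finset.card_range] at hcard
  have hcR : (c : ℝ) ≤ (({k : ℕ | k < n ∧ (⇑T)^[k] x ∈ U}.ncard : ℕ) : ℝ) := by
    exact_mod_cast hcard
  refine le_trans ?_ hcR
  rw [div_mul_eq_mul_div, one_mul, div_le_iff₀ (by positivity)]
  have h5 : n ≤ c * (4 ^ 5 * 2 ^ (k + 1)) := by
    have : c * (4 ^ 5 * 2 ^ (k + 1)) = 4 ^ 5 * Q := by rw [← hcQ]; ring
    omega
  exact_mod_cast h5

lemma no_density (A : Set ℕ) (hA : A ⊆ {k : ℕ | (⇑T)^[k] x ∈ {z : X | 1 < ‖z‖}}) :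
    ¬ ∃ d : ℝ, 0 < d ∧ Filter.Tendsto
      (fun n : ℕ => (({k : ℕ | k < n ∧ k ∈ A}.ncard : ℕ) : ℝ) / (n : ℝ))
      Filter.atTop (nhds d) := by
  rintro ⟨d, hd, hlim⟩
  set M : ℕ → ℕ := fun j => p (4 ^ (3 * j)) with hM
  have hMge : ∀ j, j < M j := by
    intro j
    have h1 : 4 ^ (3 * j) ≤ M j := (Nat.le_add_right _ _).trans (p_ge _)
    have h2 : j < 4 ^ j := Nat.lt_pow_self (by norm_num)
    have h3 : 4 ^ j ≤ 4 ^ (3 * j) := Nat.pow_le_pow_right (by norm_num) (by omega)
    omega
  have hMt : Tendsto M atTop atTop :=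
    tendsto_atTop_mono (fun j => (hMge j).le) tendsto_id
  have hM2t : Tendsto (fun j => 2 * M j) atTop atTop :=
    tendsto_atTop_mono (fun j => by have := (hMge j).le; simp only [id]; omega) tendsto_id
  have h1 := hlim.comp hMt
  have h2 := hlim.comp hM2t
  have heq : ∀ j, {k : ℕ | k < 2 * M j ∧ k ∈ A} = {k : ℕ | k < M j ∧ k ∈ A} := by
    intro j
    ext k
    constructor
    · rintro ⟨hk1, hk2⟩
      refine ⟨?_, hk2⟩
      by_contra hcon
      have hk3 : (1 : ℝ) < ‖(⇑T)^[k] x‖ := hA hk2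
      have hk4 := window (j := j) (n := k) (not_lt.1 hcon) hk1.le
      linarith
    · rintro ⟨hk1, hk2⟩
      exact ⟨by omega, hk2⟩
  have h3 : ∀ j, ((fun n : ℕ => (({k : ℕ | k < n ∧ k ∈ A}.ncard : ℕ) : ℝ) / (n : ℝ)) ∘
      (fun j => 2 * M j)) j = (1 / 2) * ((fun n : ℕ => (({k : ℕ | k < n ∧ k ∈ A}.ncard : ℕ) : ℝ) /
      (n : ℝ)) ∘ M) j := by
    intro j
    simp only [Function.comp_apply]
    rw [heq j]
    push_cast
    have : (0 : ℝ) < M j := by
      have := hMge j
      exact_mod_cast (by omega : 0 < M j)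
    field_simp
  have h4 := h1.const_mul (1 / 2)
  have h5 := h2.congr h3
  have h6 := tendsto_nhds_unique h4 h5
  linarith

lemma exists_norm_gt : {z : X | 1 < ‖z‖}.Nonempty := by
  refine ⟨ofList [2], ?_⟩
  show (1 : ℝ) < ‖ofList [2]‖
  have h := apply_le_norm (ofList [2]) 0
  rw [ofList_apply] at h
  have h2 : ((([2] : List ℚ).getD 0 0 : ℚ) : ℝ) = 2 := by simp
  rw [h2, Real.norm_of_nonneg (by norm_num)] at h
  linarith

end
end Pool.Agent.R220.FreqHyp
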