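import Mathlib

set_option autoImplicit false

/-! # Analytic estimates for MP_29b22c_an -/

open Complex Metric Set Filter Topology

namespace Pool.Agent.R220.MinMetric

/-- gradient bound for holomorphic functions with bounded real part -/
lemma grad_bound {F : ℂ → ℂ} {a : ℂ} {ρ M : ℝ} (hρ : 0 < ρ) (hM : 0 < M)
    (hF : DifferentiableOn ℂ F (ball a ρ)) (hb : ∀ z ∈ ball a ρ, |(F z).re| ≤ M) :
    ‖deriv F a‖ ≤ 11 * M / ρ := by
  have ma : a ∈ ball a ρ := mem_ball_self hρ
  have hFa : DifferentiableAt ℂ F a := hF.differentiableAt (isOpen_ball.mem_nhds ma)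
  set G : ℂ → ℂ := fun z => exp (F z / (2 * M)) with hG
  have hGn : ∀ z, ‖G z‖ = Real.exp ((F z).re / (2 * M)) := by
    intro z
    rw [hG, Complex.norm_exp]
    congr 1
    have : (F z / (2 * (M : ℂ))) = F z / ((2 * M : ℝ) : ℂ) := by push_cast; rfl
    rw [this, Complex.div_ofReal_re]
  have hup : ∀ z ∈ ball a ρ, ‖G z‖ ≤ Real.exp (1 / 2) := by
    intro z hz
    rw [hGn]
    apply Real.exp_le_exp.2
    rw [div_le_iff₀ (by positivity)]
    have := (abs_le.1 (hb z hz)).2
    linarith
  have hlo : Real.exp (-(1 / 2)) ≤ ‖G a‖ := by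
    rw [hGn]
    apply Real.exp_le_exp.2
    rw [le_div_iff₀ (by positivity)]
    have := (abs_le.1 (hb a ma)).1
    linarith
  have hGd : DifferentiableOn ℂ G (ball a ρ) := (hF.div_const _).cexp
  have hmaps : MapsTo G (ball a ρ) (closedBall (G a) (2 * Real.exp (1 / 2))) := by
    intro z hz
    rw [mem_closedBall, dist_eq_norm]
    have := norm_sub_le (G z) (G a)
    have h1 := hup z hz
    have h2 := hup a ma
    linarith
  have h3 := Complex.norm_deriv_le_div_of_mapsTo_ball hGd hmaps hρ
  have h4 : deriv G a = G a * (deriv F a / (2 * M)) := by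
    have e1 : HasDerivAt (fun z => F z / (2 * M)) (deriv F a / (2 * M)) a :=
      hFa.hasDerivAt.div_const _
    exact e1.cexp.deriv
  rw [h4, norm_mul, norm_div] at h3
  have h5 : ‖(2 * (M : ℂ))‖ = 2 * M := by
    rw [norm_mul, Complex.norm_real, Real.norm_eq_abs, abs_of_pos hM]
    simp
  rw [h5] at h3
  have h6 : Real.exp (-(1 / 2)) * (‖deriv F a‖ / (2 * M)) ≤ 2 * Real.exp (1 / 2) / ρ :=
    (mul_le_mul_of_nonneg_right hlo (by positivity)).trans h3
  have h7 : ‖deriv F a‖ ≤ 4 * Real.exp 1 * M / ρ := by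
    have e1 : Real.exp 1 = Real.exp (1 / 2) * Real.exp (1 / 2) := by
      rw [← Real.exp_add]; norm_num
    have e2 : Real.exp (1 / 2) * Real.exp (-(1 / 2)) = 1 := by
      rw [← Real.exp_add]; norm_num
    have h8 := mul_le_mul_of_nonneg_left h6 (Real.exp_pos (1 / 2)).le
    have h9 : Real.exp (1 / 2) * (Real.exp (-(1 / 2)) * (‖deriv F a‖ / (2 * M))) =
        ‖deriv F a‖ / (2 * M) := by
      rw [← mul_assoc, e2, one_mul]
    rw [h9, div_le_iff₀ (by positivity)] at h8
    calc ‖deriv F a‖ ≤ _ := h8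
      _ = 4 * Real.exp 1 * M / ρ := by rw [e1]; ring
  refine h7.trans ?_
  have h10 : 4 * Real.exp 1 ≤ 11 := by
    have := Real.exp_one_lt_d9
    linarith
  exact div_le_div_of_nonneg_right (mul_le_mul_of_nonneg_right h10 hM.le) hρ.le

/-- propagation of smallness from a small disc, through Hadamard's three lines theorem -/
lemma deriv_small {F : ℂ → ℂ} {z0 : ℂ} {ρ0 ε c : ℝ} (h0 : 0 < ρ0) (h1 : ρ0 < 1 / 2)
    (hε : 0 < ε) (hεs : 22 * ε / ρ0 ≤ 1)
    (hF : DifferentiableOn ℂ F (ball 0 1)) (hb : ∀ z ∈ ball (0 : ℂ) 1, |(F z).re| ≤ 1)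
    (hz0 : ‖z0‖ ≤ 1 / 3) (hs : ∀ z ∈ ball z0 ρ0, |(F z).re - c| ≤ ε)
    {z : ℂ} (hz : ‖z - z0‖ ≤ 1 / 3) :
    ‖deriv F z‖ ≤ 66 * (22 * ε / ρ0) ^
      ((Real.log (1 / 2) - Real.log (1 / 3)) / (Real.log (1 / 2) - Real.log (ρ0 / 2))) := by
  set l := Real.log (ρ0 / 2) with hl
  set u := Real.log (1 / 2) with hu
  have hlu : l < u := Real.log_lt_log (by positivity) (by linarith)
  set a := 22 * ε / ρ0 with ha
  have ha0 : 0 < a := by positivity
  set κ := (u - Real.log (1 / 3)) / (u - l) with hκ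
  have hl3 : l < Real.log (1 / 3) := Real.log_lt_log (by positivity) (by linarith)
  have hu3 : Real.log (1 / 3) < u := Real.log_lt_log (by positivity) (by norm_num)
  have hκ0 : 0 < κ := div_pos (by linarith) (by linarith)
  have hκ1 : κ ≤ 1 := by
    rw [hκ, div_le_one (by linarith)]
    linarith
  -- inner bound
  have hin : ∀ w : ℂ, ‖w - z0‖ ≤ ρ0 / 2 → ‖deriv F w‖ ≤ a := by
    intro w hw
    have hsub : ball w (ρ0 / 2) ⊆ ball z0 ρ0 := by
      apply ball_subset_ball'
      rw [dist_eq_norm]; linarith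
    have hsub1 : ball w (ρ0 / 2) ⊆ ball 0 1 := by
      apply hsub.trans
      apply ball_subset_ball'
      rw [dist_zero_right]; linarith
    have hd : DifferentiableOn ℂ (fun z => F z - c) (ball w (ρ0 / 2)) :=
      (hF.mono hsub1).sub_const _
    have h2 := grad_bound (M := ε) (by positivity : 0 < ρ0 / 2) hε hd (by
      intro z hz
      have := hs z (hsub hz)
      simpa using this)
    rw [deriv_sub_const] at h2
    refine h2.trans_eq ?_
    rw [ha]; field_simp; ring
  -- outer bound
  have hout : ∀ w : ℂ, ‖w - z0‖ ≤ 1 / 2 → ‖deriv F w‖ ≤ 66 := by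
    intro w hw
    have hsub1 : ball w (1 / 6) ⊆ ball 0 1 := by
      apply ball_subset_ball'
      rw [dist_zero_right]
      have := norm_add_le (w - z0) z0
      rw [sub_add_cancel] at this
      linarith
    have h2 := grad_bound (M := 1) (by norm_num : (0 : ℝ) < 1 / 6) one_pos (hF.mono hsub1)
      (fun z hz => hb z (hsub1 hz))
    refine h2.trans_eq ?_
    norm_num
  have haκ : a ≤ a ^ κ := by
    calc a = a ^ (1 : ℝ) := (Real.rpow_one a).symm
      _ ≤ a ^ κ := Real.rpow_le_rpow_of_exponent_ge ha0 hεs hκ1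
  rcases le_or_gt ‖z - z0‖ (ρ0 / 2) with hcase | hcase
  · refine (hin z hcase).trans (haκ.trans ?_)
    have : 0 ≤ a ^ κ := by positivity
    linarith
  · -- three lines
    have hne : z - z0 ≠ 0 := by
      intro h
      rw [h, norm_zero] at hcase
      linarith
    have hpos : 0 < ‖z - z0‖ := norm_pos_iff.2 hne
    set H : ℂ → ℂ := fun s => deriv F (z0 + exp s) with hH
    have hexp : ∀ s : ℂ, ‖exp s‖ = Real.exp s.re := Complex.norm_exp
    have hin1 : ∀ s : ℂ, s.re ≤ u → z0 + exp s ∈ ball (0 : ℂ) 1 := by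
      intro s hs
      rw [mem_ball_zero_iff]
      have h2 : Real.exp s.re ≤ 1 / 2 := by
        calc Real.exp s.re ≤ Real.exp u := Real.exp_le_exp.2 hs
          _ = 1 / 2 := Real.exp_log (by norm_num)
      have h3 := norm_add_le z0 (exp s)
      rw [hexp] at h3
      linarith
    have hF' : DifferentiableOn ℂ (deriv F) (ball 0 1) := hF.deriv isOpen_ball
    have hHd : ∀ s : ℂ, s.re ≤ u → DifferentiableAt ℂ H s := by
      intro s hs
      have h2 : DifferentiableAt ℂ (deriv F) (z0 + exp s) :=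
        hF'.differentiableAt (isOpen_ball.mem_nhds (hin1 s hs))
      have h3 : DifferentiableAt ℂ (fun s => z0 + exp s) s :=
        (differentiableAt_const _).add differentiableAt_exp
      exact DifferentiableAt.comp (g := deriv F) (f := fun s => z0 + exp s) s h2 h3
    have hHb : ∀ s : ℂ, s.re ≤ u → ‖H s‖ ≤ 66 := by
      intro s hs
      apply hout
      rw [add_sub_cancel_left, hexp]
      calc Real.exp s.re ≤ Real.exp u := Real.exp_le_exp.2 hs
          _ = 1 / 2 := Real.exp_log (by norm_num)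
    have hs0 : Real.exp (log (z - z0)).re = ‖z - z0‖ := by
      rw [Complex.log_re, Real.exp_log hpos]
    have hzH : H (log (z - z0)) = deriv F z := by
      simp only [hH]
      rw [Complex.exp_log hne]
      congr 1
      ring
    have hre : (log (z - z0)).re = Real.log ‖z - z0‖ := Complex.log_re _
    have hre3 : (log (z - z0)).re ≤ Real.log (1 / 3) := by
      rw [hre]; exact Real.log_le_log hpos hz
    have hrel : l ≤ (log (z - z0)).re := by
      rw [hre]; exact Real.log_le_log (by positivity) hcase.le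
    have hmem : log (z - z0) ∈ Complex.HadamardThreeLines.verticalClosedStrip l u := by
      refine ⟨hrel, ?_⟩
      linarith
    have hdc : DiffContOnCl ℂ H (Complex.HadamardThreeLines.verticalStrip l u) := by
      apply DifferentiableOn.diffContOnCl
      intro s hs
      have h2 : s.re ≤ u := by
        have hcl : closure (Complex.HadamardThreeLines.verticalStrip l u) ⊆
            {s : ℂ | s.re ≤ u} := by
          apply closure_minimal
          · intro s hs
            exact hs.2.le
          · exact isClosed_le Complex.continuous_re continuous_const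
        exact hcl hs
      exact (hHd s h2).differentiableWithinAt
    have hbd : BddAbove ((norm ∘ H) '' Complex.HadamardThreeLines.verticalClosedStrip l u) := by
      refine ⟨66, ?_⟩
      rintro _ ⟨s, hs, rfl⟩
      exact hHb s hs.2
    have key := Complex.HadamardThreeLines.norm_le_interp_of_mem_verticalClosedStrip' (a := a)
      (b := 66) hlu hmem hdc hbd (by
        intro s hs
        have hs' : s.re = l := hs
        apply hin
        rw [add_sub_cancel_left, hexp, hs', hl, Real.exp_log (by positivity)]) (by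
        intro s hs
        have hs' : s.re = u := hs
        exact hHb s hs'.le)
    rw [hzH] at key
    refine key.trans ?_
    set θ := ((log (z - z0)).re - l) / (u - l) with hθ
    have hθ0 : 0 ≤ θ := div_nonneg (by linarith) (by linarith)
    have hθ1 : θ ≤ 1 := by
      rw [hθ, div_le_one (by linarith)]; linarith
    have hθκ : κ ≤ 1 - θ := by
      have : 1 - θ = (u - (log (z - z0)).re) / (u - l) := by
        have hne' : u - l ≠ 0 := by linarith
        rw [hθ]; field_simp; ring
      rw [this, hκ]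
      apply div_le_div_of_nonneg_right _ (by linarith)
      linarith
    have e1 : a ^ (1 - θ) ≤ a ^ κ := Real.rpow_le_rpow_of_exponent_ge ha0 hεs hθκ
    have e2 : (66 : ℝ) ^ θ ≤ 66 := by
      calc (66 : ℝ) ^ θ ≤ (66 : ℝ) ^ (1 : ℝ) :=
            Real.rpow_le_rpow_of_exponent_le (by norm_num) hθ1
        _ = 66 := Real.rpow_one _
    calc a ^ (1 - θ) * 66 ^ θ ≤ a ^ κ * 66 := by
          apply mul_le_mul e1 e2 (by positivity) (by positivity)
      _ = 66 * a ^ κ := by ring

/-- propagation: a harmonic function bounded by `1` which is very close to `c ≠ 0` on a small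
disc does not vanish at the origin -/
lemma propagation {c ρ0 : ℝ} (hc : c ≠ 0) (h0 : 0 < ρ0) (h1 : ρ0 < 1 / 2) :
    ∃ ε > 0, ∀ F : ℂ → ℂ, DifferentiableOn ℂ F (ball 0 1) →
      (∀ z ∈ ball (0 : ℂ) 1, |(F z).re| ≤ 1) → ∀ z0 : ℂ, ‖z0‖ ≤ 1 / 3 →
      (∀ z ∈ ball z0 ρ0, |(F z).re - c| ≤ ε) → (F 0).re ≠ 0 := by
  set κ := (Real.log (1 / 2) - Real.log (1 / 3)) / (Real.log (1 / 2) - Real.log (ρ0 / 2)) with hκ
  have hlu : Real.log (ρ0 / 2) < Real.log (1 / 2) := Real.log_lt_log (by positivity) (by linarith)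
  have hu3 : Real.log (1 / 3) < Real.log (1 / 2) := Real.log_lt_log (by positivity) (by norm_num)
  have hκ0 : 0 < κ := div_pos (by linarith) (by linarith)
  have hlim : Tendsto (fun ε : ℝ => ε + 66 * (22 * ε / ρ0) ^ κ) (𝓝 0) (𝓝 0) := by
    have h2 : ContinuousAt (fun ε : ℝ => ε + 66 * (22 * ε / ρ0) ^ κ) 0 := by
      apply ContinuousAt.add continuousAt_id
      apply ContinuousAt.mul continuousAt_const
      apply ContinuousAt.rpow_const
      · fun_prop
      · right; exact hκ0.le
    have h3 := h2.tendsto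
    simpa [Real.zero_rpow hκ0.ne'] using h3
  have hev : ∀ᶠ ε : ℝ in 𝓝 0, ε + 66 * (22 * ε / ρ0) ^ κ < |c| :=
    hlim.eventually_lt_const (abs_pos.2 hc)
  have hev2 : ∀ᶠ ε : ℝ in 𝓝 0, 22 * ε / ρ0 < 1 := by
    have h2 : ContinuousAt (fun ε : ℝ => 22 * ε / ρ0) 0 := by fun_prop
    have h3 := h2.tendsto
    exact h3.eventually_lt_const (by simp)
  obtain ⟨δ, hδ, hball⟩ := Metric.eventually_nhds_iff.1 (hev.and hev2)
  have hδ2 : dist (δ / 2) 0 < δ := by
    rw [dist_zero_right, Real.norm_eq_abs, abs_of_pos (by positivity)]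
    linarith
  obtain ⟨hA, hB⟩ := hball hδ2
  refine ⟨δ / 2, by positivity, ?_⟩
  intro F hF hb z0 hz0 hs hzero
  have hz0m : z0 ∈ closedBall z0 (1 / 3) := mem_closedBall_self (by norm_num)
  have h0m : (0 : ℂ) ∈ closedBall z0 (1 / 3) := by
    rw [mem_closedBall, dist_zero_left]; exact hz0
  have hsub : closedBall z0 (1 / 3) ⊆ ball 0 1 := by
    apply closedBall_subset_ball'
    rw [dist_zero_right]; linarith
  have hmv := Convex.norm_image_sub_le_of_norm_deriv_le (𝕜 := ℂ) (f := F)
    (s := closedBall z0 (1 / 3)) (C := 66 * (22 * (δ / 2) / ρ0) ^ κ)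
    (fun z hz => hF.differentiableAt (isOpen_ball.mem_nhds (hsub hz)))
    (fun z hz => deriv_small h0 h1 (by positivity) hB.le hF hb hz0 hs (by
      rw [mem_closedBall, dist_eq_norm] at hz; exact hz))
    (convex_closedBall _ _) hz0m h0m
  have h4 : ‖F 0 - F z0‖ ≤ 66 * (22 * (δ / 2) / ρ0) ^ κ := by
    refine hmv.trans ?_
    rw [zero_sub, norm_neg]
    have : 0 ≤ 66 * (22 * (δ / 2) / ρ0) ^ κ := by positivity
    nlinarith
  have h5 : |(F 0).re - (F z0).re| ≤ 66 * (22 * (δ / 2) / ρ0) ^ κ := by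
    refine le_trans ?_ h4
    have := Complex.abs_re_le_norm (F 0 - F z0)
    simpa using this
  have h6 := hs z0 (mem_ball_self h0)
  have h7 : |c| ≤ |(F z0).re - c| + |(F 0).re - (F z0).re| := by
    rw [hzero]
    have h8 := abs_sub_abs_le_abs_sub c (F z0).re
    rw [abs_sub_comm c] at h8
    rw [zero_sub, abs_neg]
    linarith
  linarith

end Pool.Agent.R220.MinMetric
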