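import Mathlib
set_option autoImplicit false
open Filter Topology MeasureTheory
open scoped ZeroAtInfty

namespace Pool.Agent.R220.ShiftC0
noncomputable section

/-- the Banach space `C₀(ℝ, ℂ)`. -/
abbrev X0 : Type := ZeroAtInftyContinuousMap ℝ ℂ

/-- `r ↦ r - t` as a cocompact map. -/
def shiftMap (t : ℝ) : CocompactMap ℝ ℝ := (Homeomorph.subRight t).toCocompactMap

lemma shiftMap_apply (t r : ℝ) : shiftMap t r = r - t := rfl

lemma norm_le_iff (f : X0) {C : ℝ} (hC : 0 ≤ C) : ‖f‖ ≤ C ↔ ∀ r, ‖f r‖ ≤ C := by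
  rw [← ZeroAtInftyContinuousMap.norm_toBCF_eq_norm, BoundedContinuousFunction.norm_le hC]
  rfl

lemma apply_le_norm (f : X0) (r : ℝ) : ‖f r‖ ≤ ‖f‖ :=
  (norm_le_iff f (norm_nonneg _)).1 le_rfl r

/-- Translation operator `(T(t) f)(r) = f (r - t)` on `C₀(ℝ, ℂ)`. -/
def shift (t : ℝ) : X0 →L[ℂ] X0 :=
  (ZeroAtInftyContinuousMap.compLinearMap (R := ℂ) (δ := ℂ) (shiftMap t)).mkContinuous 1 (by
    intro f
    rw [one_mul, norm_le_iff _ (norm_nonneg _)]
    intro r
    exact apply_le_norm f _)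

lemma shift_apply (t : ℝ) (f : X0) (r : ℝ) : shift t f r = f (r - t) := rfl

lemma shift_zero : shift 0 = 1 := by
  ext f r
  simp [shift_apply]

lemma shift_add (s t : ℝ) : shift (s + t) = shift s * shift t := by
  ext f r
  simp only [shift_apply, mul_apply_eq_comp]
  congr 1
  ring

lemma norm_shift_apply_le (t : ℝ) (f : X0) : ‖shift t f‖ ≤ ‖f‖ := by
  rw [norm_le_iff _ (norm_nonneg _)]
  intro r
  exact apply_le_norm f _

lemma norm_shift_apply (t : ℝ) (f : X0) : ‖shift t f‖ = ‖f‖ := by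
  apply le_antisymm (norm_shift_apply_le t f)
  have h : f = shift (-t) (shift t f) := by
    ext r
    simp [shift_apply]
  conv_lhs => rw [h]
  exact norm_shift_apply_le _ _

lemma norm_shift_le (t : ℝ) : ‖shift t‖ ≤ 1 :=
  ContinuousLinearMap.opNorm_le_bound _ zero_le_one (fun f => by
    rw [one_mul]; exact norm_shift_apply_le t f)

lemma continuous_shift (f : X0) : Continuous (fun t : ℝ => shift t f) := by
  rw [Metric.continuous_iff]
  intro t ε hε
  obtain ⟨δ, hδ, h⟩ := Metric.uniformContinuous_iff.1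
    (ZeroAtInftyContinuousMap.uniformContinuous f) (ε / 2) (by positivity)
  refine ⟨δ, hδ, fun s hs => ?_⟩
  have : ‖shift s f - shift t f‖ ≤ ε / 2 := by
    rw [norm_le_iff _ (by positivity)]
    intro r
    rw [ZeroAtInftyContinuousMap.sub_apply, shift_apply, shift_apply, ← dist_eq_norm]
    apply le_of_lt
    apply h
    rw [Real.dist_eq] at hs ⊢
    rw [show r - s - (r - t) = -(s - t) by ring, abs_neg]
    exact hs
  rw [dist_eq_norm]
  linarith

/-- The function `r ↦ 1/(1+r²)` as an element of `C₀(ℝ, ℂ)`. -/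
def x0 : X0 where
  toFun r := (((1 + r ^ 2)⁻¹ : ℝ) : ℂ)
  continuous_toFun := by
    apply Complex.continuous_ofReal.comp
    apply Continuous.inv₀ (by fun_prop)
    intro r
    positivity
  zero_at_infty' := by
    have h : Tendsto (fun r : ℝ => (1 + r ^ 2)⁻¹) (cocompact ℝ) (𝓝 0) := by
      apply Tendsto.comp tendsto_inv_atTop_zero
      apply tendsto_atTop_add_const_left
      have := (tendsto_pow_atTop (α := ℝ) (n := 2) (by norm_num)).comp
        (tendsto_norm_cocompact_atTop (E := ℝ))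
      refine this.congr (fun r => ?_)
      simp
    have h2 : Tendsto (fun r : ℝ => (((1 + r ^ 2)⁻¹ : ℝ) : ℂ)) (cocompact ℝ) (𝓝 ((0 : ℝ) : ℂ)) :=
      (Complex.continuous_ofReal.tendsto 0).comp h
    rw [Complex.ofReal_zero] at h2
    exact h2

lemma x0_apply (r : ℝ) : x0 r = (((1 + r ^ 2)⁻¹ : ℝ) : ℂ) := rfl

lemma norm_x0_apply (r : ℝ) : ‖x0 r‖ = (1 + r ^ 2)⁻¹ := by
  rw [x0_apply, Complex.norm_real, Real.norm_of_nonneg (by positivity)]

lemma one_le_norm_x0 : 1 ≤ ‖x0‖ := by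
  have := apply_le_norm x0 0
  rw [norm_x0_apply] at this
  simpa using this

/-- point evaluation. -/
def ev (r : ℝ) : X0 →L[ℂ] ℂ :=
  LinearMap.mkContinuous
    { toFun := fun f => f r
      map_add' := fun _ _ => rfl
      map_smul' := fun _ _ => rfl } 1 (fun f => by
        rw [one_mul]; exact apply_le_norm f r)

lemma ev_apply (r : ℝ) (f : X0) : ev r f = f r := rfl

lemma norm_exp_eq (a s t : ℝ) :
    ‖Complex.exp (-(((a : ℂ) + (s : ℂ) * Complex.I) * (t : ℂ)))‖ = Real.exp (-a * t) := by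
  rw [Complex.norm_exp]
  congr 1
  simp

lemma integrableOn_laplace {a : ℝ} (ha : 0 < a) (s : ℝ) (f : X0) :
    IntegrableOn (fun t : ℝ => Complex.exp (-(((a : ℂ) + (s : ℂ) * Complex.I) * (t : ℂ))) •
      shift t f) (Set.Ioi 0) := by
  have h1 : IntegrableOn (fun t : ℝ => Real.exp (-a * t) * ‖f‖) (Set.Ioi 0) :=
    (integrableOn_exp_mul_Ioi (by linarith) 0).mul_const _
  refine h1.mono' ?_ ?_
  · apply Continuous.aestronglyMeasurable
    exact (by fun_prop : Continuous (fun t : ℝ =>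
      Complex.exp (-(((a : ℂ) + (s : ℂ) * Complex.I) * (t : ℂ))))).smul (continuous_shift f)
  · refine ae_of_all _ (fun t => ?_)
    rw [norm_smul, norm_exp_eq]
    exact mul_le_mul_of_nonneg_left (norm_shift_apply_le t f) (Real.exp_nonneg _)

lemma laplace_apply {a : ℝ} (ha : 0 < a) (s : ℝ) (f : X0) (r : ℝ) :
    (∫ t in Set.Ioi (0 : ℝ), Complex.exp (-(((a : ℂ) + (s : ℂ) * Complex.I) * (t : ℂ))) •
      shift t f) r =
    ∫ t in Set.Ioi (0 : ℝ), Complex.exp (-(((a : ℂ) + (s : ℂ) * Complex.I) * (t : ℂ))) *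
      f (r - t) := by
  rw [← ev_apply r, ← ContinuousLinearMap.integral_comp_comm _ (integrableOn_laplace ha s f)]
  rfl

lemma integrable_cauchy (r : ℝ) : Integrable (fun t : ℝ => (1 + (r - t) ^ 2)⁻¹) :=
  integrable_inv_one_add_sq.comp_sub_left r

lemma integral_cauchy (r : ℝ) : ∫ t : ℝ, (1 + (r - t) ^ 2)⁻¹ = Real.pi := by
  rw [← integral_univ_inv_one_add_sq]
  exact integral_sub_left_eq_self (fun t : ℝ => (1 + t ^ 2)⁻¹) volume r

lemma norm_integral_le_pi {a : ℝ} (ha : 0 < a) (s r : ℝ) (g : ℝ → ℂ)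
    (hg : ∀ u, ‖g u‖ ≤ (1 + u ^ 2)⁻¹) :
    ‖∫ t in Set.Ioi (0 : ℝ), Complex.exp (-(((a : ℂ) + (s : ℂ) * Complex.I) * (t : ℂ))) *
      g (r - t)‖ ≤ Real.pi := by
  calc _ ≤ ∫ t in Set.Ioi (0 : ℝ), (1 + (r - t) ^ 2)⁻¹ := by
        apply norm_integral_le_of_norm_le (integrable_cauchy r).integrableOn
        rw [ae_restrict_iff' measurableSet_Ioi]
        refine ae_of_all _ (fun t ht => ?_)
        rw [norm_mul, norm_exp_eq]
        have h1 : Real.exp (-a * t) ≤ 1 := by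
          rw [Real.exp_le_one_iff]
          have : 0 < t := ht
          nlinarith
        calc Real.exp (-a * t) * ‖g (r - t)‖ ≤ 1 * (1 + (r - t) ^ 2)⁻¹ :=
              mul_le_mul h1 (hg _) (norm_nonneg _) zero_le_one
          _ = _ := one_mul _
    _ ≤ ∫ t : ℝ, (1 + (r - t) ^ 2)⁻¹ := by
        apply setIntegral_le_integral (integrable_cauchy r)
        exact ae_of_all _ (fun t => by positivity)
    _ = Real.pi := integral_cauchy r

lemma norm_laplace_le {a : ℝ} (ha : 0 < a) (s : ℝ) :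
    ‖∫ t in Set.Ioi (0 : ℝ), Complex.exp (-(((a : ℂ) + (s : ℂ) * Complex.I) * (t : ℂ))) •
      shift t x0‖ ≤ Real.pi := by
  rw [norm_le_iff _ Real.pi_pos.le]
  intro r
  rw [laplace_apply ha]
  exact norm_integral_le_pi ha s r _ (fun u => (norm_x0_apply u).le)

/-- derivative of `x0`. -/
def dx0 (u : ℝ) : ℂ := ((-(2 * u) / (1 + u ^ 2) ^ 2 : ℝ) : ℂ)

lemma norm_dx0_le (u : ℝ) : ‖dx0 u‖ ≤ (1 + u ^ 2)⁻¹ := by
  rw [dx0, Complex.norm_real, Real.norm_eq_abs, abs_div, abs_of_nonneg (a := (1 + u ^ 2) ^ 2)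
    (by positivity), div_le_iff₀ (by positivity)]
  have h : (1 + u ^ 2)⁻¹ * (1 + u ^ 2) ^ 2 = 1 + u ^ 2 := by
    have : (1 + u ^ 2) ≠ 0 := by positivity
    field_simp
  rw [h, abs_le]
  constructor <;> nlinarith [sq_nonneg (u - 1), sq_nonneg (u + 1)]

lemma hasDerivAt_x0 (u : ℝ) : HasDerivAt (fun v : ℝ => x0 v) (dx0 u) u := by
  have h1 : HasDerivAt (fun v : ℝ => (1 + v ^ 2)⁻¹) (-(2 * u) / (1 + u ^ 2) ^ 2) u := by
    have h2 : HasDerivAt (fun v : ℝ => 1 + v ^ 2) (2 * u) u := by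
      simpa using (hasDerivAt_pow 2 u).const_add 1
    exact h2.inv (by positivity)
  exact h1.ofReal_comp

lemma continuous_dx0 : Continuous dx0 := by
  apply Complex.continuous_ofReal.comp
  apply Continuous.div (by fun_prop) (by fun_prop)
  intro u
  positivity

lemma laplace_parts {a : ℝ} (ha : 0 < a) (s r : ℝ) :
    ((a : ℂ) + (s : ℂ) * Complex.I) * (∫ t in Set.Ioi (0 : ℝ),
      Complex.exp (-(((a : ℂ) + (s : ℂ) * Complex.I) * (t : ℂ))) * x0 (r - t)) =
    x0 r - ∫ t in Set.Ioi (0 : ℝ),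
      Complex.exp (-(((a : ℂ) + (s : ℂ) * Complex.I) * (t : ℂ))) * dx0 (r - t) := by
  set l : ℂ := (a : ℂ) + (s : ℂ) * Complex.I with hl
  have hexp : ∀ t : ℝ, ‖Complex.exp (-(l * (t : ℂ)))‖ = Real.exp (-a * t) :=
    fun t => norm_exp_eq a s t
  have hint : ∀ g : ℝ → ℂ, Continuous g → (∀ u, ‖g u‖ ≤ (1 + u ^ 2)⁻¹) →
      IntegrableOn (fun t : ℝ => Complex.exp (-(l * (t : ℂ))) * g (r - t)) (Set.Ioi 0) := by
    intro g hg hgn
    refine (integrable_cauchy r).integrableOn.mono' ?_ ?_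
    · apply Continuous.aestronglyMeasurable
      fun_prop
    · rw [ae_restrict_iff' measurableSet_Ioi]
      refine ae_of_all _ (fun t ht => ?_)
      rw [norm_mul, hexp]
      have h1 : Real.exp (-a * t) ≤ 1 := by
        rw [Real.exp_le_one_iff]
        have : 0 < t := ht
        nlinarith
      calc Real.exp (-a * t) * ‖g (r - t)‖ ≤ 1 * (1 + (r - t) ^ 2)⁻¹ :=
            mul_le_mul h1 (hgn _) (norm_nonneg _) zero_le_one
        _ = _ := one_mul _
  have hi0 := hint (fun u => x0 u) x0.continuous (fun u => (norm_x0_apply u).le)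
  have hi1 := hint dx0 continuous_dx0 norm_dx0_le
  have hderiv : ∀ t : ℝ, HasDerivAt (fun t : ℝ => -(Complex.exp (-(l * (t : ℂ))) * x0 (r - t)))
      (l * (Complex.exp (-(l * (t : ℂ))) * x0 (r - t)) +
        Complex.exp (-(l * (t : ℂ))) * dx0 (r - t)) t := by
    intro t
    have h1 : HasDerivAt (fun t : ℝ => Complex.exp (-(l * (t : ℂ))))
        (Complex.exp (-(l * (t : ℂ))) * (-(l * 1))) t := by
      apply HasDerivAt.cexp
      apply HasDerivAt.neg
      exact (HasDerivAt.ofReal_comp (hasDerivAt_id t)).const_mul l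
    have h2 : HasDerivAt (fun t : ℝ => x0 (r - t)) (-(dx0 (r - t))) t := by
      have h3 : HasDerivAt (fun t : ℝ => r - t) (-1) t := by
        simpa using (hasDerivAt_id t).const_sub r
      have h4 := (hasDerivAt_x0 (r - t)).scomp t h3
      rw [neg_one_smul] at h4
      exact h4
    have h5 := (h1.mul h2).neg
    refine h5.congr_deriv ?_
    ring
  have hlim : Tendsto (fun t : ℝ => -(Complex.exp (-(l * (t : ℂ))) * x0 (r - t))) atTop (𝓝 0) := by
    rw [tendsto_zero_iff_norm_tendsto_zero]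
    have h1 : Tendsto (fun t : ℝ => Real.exp (-a * t)) atTop (𝓝 0) := by
      apply Real.tendsto_exp_atBot.comp
      exact tendsto_id.const_mul_atTop_of_neg (by linarith)
    refine squeeze_zero (fun t => norm_nonneg _) (fun t => ?_) h1
    rw [norm_neg, norm_mul, hexp, norm_x0_apply]
    have : (1 + (r - t) ^ 2)⁻¹ ≤ 1 := inv_le_one_of_one_le₀ (by nlinarith [sq_nonneg (r - t)])
    calc Real.exp (-a * t) * (1 + (r - t) ^ 2)⁻¹ ≤ Real.exp (-a * t) * 1 :=
          mul_le_mul_of_nonneg_left this (Real.exp_nonneg _)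
      _ = _ := mul_one _
  have hF := integral_Ioi_of_hasDerivAt_of_tendsto' (a := (0 : ℝ)) (fun t _ => hderiv t)
    ((hi0.const_mul l).add hi1) hlim
  rw [integral_add (hi0.const_mul l) hi1, integral_const_mul] at hF
  simp only [Complex.ofReal_zero, mul_zero, neg_zero, Complex.exp_zero, sub_zero, one_mul,
    zero_sub, neg_neg] at hF
  rw [← hF]
  ring

lemma norm_smul_laplace_le {a : ℝ} (ha : 0 < a) (s : ℝ) :
    ‖((a : ℂ) + (s : ℂ) * Complex.I) • ∫ t in Set.Ioi (0 : ℝ),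
      Complex.exp (-(((a : ℂ) + (s : ℂ) * Complex.I) * (t : ℂ))) • shift t x0‖ ≤
      1 + Real.pi := by
  rw [norm_le_iff _ (by positivity)]
  intro r
  rw [ZeroAtInftyContinuousMap.smul_apply, laplace_apply ha, smul_eq_mul, laplace_parts ha]
  refine (norm_sub_le _ _).trans (add_le_add ?_ ?_)
  · rw [norm_x0_apply]
    exact inv_le_one_of_one_le₀ (by nlinarith [sq_nonneg r])
  · exact norm_integral_le_pi ha s r _ norm_dx0_le

lemma sq_norm_laplace_le {a : ℝ} (ha : 0 < a) (s : ℝ) :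
    ‖∫ t in Set.Ioi (0 : ℝ), Complex.exp (-(((a : ℂ) + (s : ℂ) * Complex.I) * (t : ℂ))) •
      shift t x0‖ ^ 2 ≤ (Real.pi ^ 2 + (1 + Real.pi) ^ 2) * (1 + s ^ 2)⁻¹ := by
  set R := ∫ t in Set.Ioi (0 : ℝ), Complex.exp (-(((a : ℂ) + (s : ℂ) * Complex.I) * (t : ℂ))) •
      shift t x0 with hR
  have h1 : ‖R‖ ≤ Real.pi := norm_laplace_le ha s
  have h2 : ‖((a : ℂ) + (s : ℂ) * Complex.I) • R‖ ≤ 1 + Real.pi := norm_smul_laplace_le ha s
  rw [norm_smul] at h2
  have h3 : |s| ≤ ‖(a : ℂ) + (s : ℂ) * Complex.I‖ := by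
    have := Complex.abs_im_le_norm ((a : ℂ) + (s : ℂ) * Complex.I)
    simpa using this
  have h4 : |s| * ‖R‖ ≤ 1 + Real.pi :=
    (mul_le_mul_of_nonneg_right h3 (norm_nonneg _)).trans h2
  rw [← div_eq_mul_inv, le_div_iff₀ (by positivity)]
  have h5 : ‖R‖ ^ 2 ≤ Real.pi ^ 2 := pow_le_pow_left₀ (norm_nonneg _) h1 2
  have h6 : (|s| * ‖R‖) ^ 2 ≤ (1 + Real.pi) ^ 2 :=
    pow_le_pow_left₀ (by positivity) h4 2
  rw [mul_pow, sq_abs] at h6
  nlinarith

/-- the resolvent integral of the translation group at `x0` is bounded uniformly in `a`. -/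
lemma lintegral_le {a : ℝ} (ha : 0 < a) :
    ∫⁻ s : ℝ, ((‖∫ t in Set.Ioi (0 : ℝ),
      Complex.exp (-(((a : ℂ) + (s : ℂ) * Complex.I) * (t : ℂ))) • shift t x0‖₊ : ENNReal)) ^ 2 ≤
    ENNReal.ofReal ((Real.pi ^ 2 + (1 + Real.pi) ^ 2) * Real.pi) := by
  have h1 : ∀ s : ℝ, ((‖∫ t in Set.Ioi (0 : ℝ),
      Complex.exp (-(((a : ℂ) + (s : ℂ) * Complex.I) * (t : ℂ))) • shift t x0‖₊ : ENNReal)) ^ 2 ≤
      ENNReal.ofReal ((Real.pi ^ 2 + (1 + Real.pi) ^ 2) * (1 + s ^ 2)⁻¹) := by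
    intro s
    have := ENNReal.ofReal_le_ofReal (sq_norm_laplace_le ha s)
    rw [ENNReal.ofReal_pow (norm_nonneg _), ofReal_norm] at this
    exact this
  refine (lintegral_mono h1).trans ?_
  rw [← ofReal_integral_eq_lintegral_ofReal (integrable_inv_one_add_sq.const_mul _)
    (ae_of_all _ (fun s => by positivity)), integral_const_mul, integral_univ_inv_one_add_sq]

lemma tendsto_resolvent :
    Tendsto (fun a : ℝ => ENNReal.ofReal a *
      ∫⁻ s : ℝ, ((‖∫ t in Set.Ioi (0 : ℝ),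
        Complex.exp (-(((a : ℂ) + (s : ℂ) * Complex.I) * (t : ℂ))) • shift t x0‖₊ : ENNReal)) ^ 2)
      (𝓝[>] (0 : ℝ)) (𝓝 0) := by
  set C : ENNReal := ENNReal.ofReal ((Real.pi ^ 2 + (1 + Real.pi) ^ 2) * Real.pi) with hC
  have h1 : Tendsto (fun a : ℝ => ENNReal.ofReal a * C) (𝓝[>] (0 : ℝ)) (𝓝 0) := by
    have h2 : Tendsto (fun a : ℝ => ENNReal.ofReal a) (𝓝[>] (0 : ℝ)) (𝓝 0) := by
      have := (ENNReal.continuous_ofReal.tendsto 0)
      rw [ENNReal.ofReal_zero] at this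
      exact this.mono_left nhdsWithin_le_nhds
    have h3 := ENNReal.Tendsto.mul_const (b := C) h2 (Or.inr ENNReal.ofReal_ne_top)
    rwa [zero_mul] at h3
  refine tendsto_of_tendsto_of_tendsto_of_le_of_le' tendsto_const_nhds h1
    (Eventually.of_forall (fun _ => zero_le)) ?_
  filter_upwards [self_mem_nhdsWithin] with a ha
  exact mul_le_mul_right (lintegral_le ha) _

lemma not_tendsto_orbit : ¬ Tendsto (fun t : ℝ => shift t x0) atTop (𝓝 0) := by
  intro h
  have h1 := h.norm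
  rw [norm_zero] at h1
  simp only [norm_shift_apply] at h1
  have h2 := tendsto_nhds_unique h1 tendsto_const_nhds
  have h3 := one_le_norm_x0
  rw [← h2] at h3
  linarith

end
end Pool.Agent.R220.ShiftC0
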