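import Mathlib
set_option autoImplicit false
open MeasureTheory Set Filter Topology
open scoped ENNReal

namespace Pool.Agent.R220.WShift
noncomputable section

/-! ### Abstract semigroup lemmas -/
section abstract
variable {H : Type} [NormedAddCommGroup H] [NormedSpace ℂ H]

lemma orbit_continuousOn (T : ℝ → H →L[ℂ] H)
    (hadd : ∀ s t : ℝ, 0 ≤ s → 0 ≤ t → T (s + t) = (T s).comp (T t))
    (hcontr : ∀ t : ℝ, 0 ≤ t → ‖T t‖ ≤ 1) (x : H)
    (hx : Tendsto (fun h : ℝ => T h x) (𝓝[>] 0) (𝓝 x)) :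
    ContinuousOn (fun t : ℝ => T t x) (Ici 0) := by
  have key : ∀ s t : ℝ, 0 ≤ t → t ≤ s → ‖T s x - T t x‖ ≤ ‖T (s - t) x - x‖ := by
    intro s t ht hts
    have h1 : T s x = T t (T (s - t) x) := by
      have := hadd t (s - t) ht (by linarith)
      rw [show t + (s - t) = s by ring] at this
      rw [this]; rfl
    rw [h1, ← map_sub]
    calc _ ≤ ‖T t‖ * ‖T (s - t) x - x‖ := (T t).le_opNorm _
      _ ≤ 1 * ‖T (s - t) x - x‖ := mul_le_mul_of_nonneg_right (hcontr t ht) (norm_nonneg _)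
      _ = _ := one_mul _
  rw [Metric.continuousOn_iff]
  intro t ht ε hε
  rw [Metric.tendsto_nhdsWithin_nhds] at hx
  obtain ⟨δ, hδ, h⟩ := hx ε hε
  refine ⟨δ, hδ, fun s hs hst => ?_⟩
  rw [Real.dist_eq] at hst
  rcases lt_trichotomy s t with hlt | heq | hgt
  · rw [dist_comm, dist_eq_norm]
    have h2 := h (x := t - s) (show (0 : ℝ) < t - s by linarith) (by
      rw [Real.dist_eq, sub_zero, abs_sub_comm]; exact hst)
    rw [dist_eq_norm] at h2
    exact (key t s hs hlt.le).trans_lt h2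
  · rw [heq, dist_self]; exact hε
  · rw [dist_eq_norm]
    have h2 := h (x := s - t) (show (0 : ℝ) < s - t by linarith) (by
      rw [Real.dist_eq, sub_zero]; exact hst)
    rw [dist_eq_norm] at h2
    exact (key s t ht hgt.le).trans_lt h2

lemma generator_bound (T : ℝ → H →L[ℂ] H)
    (h0 : T 0 = ContinuousLinearMap.id ℂ H)
    (hadd : ∀ s t : ℝ, 0 ≤ s → 0 ≤ t → T (s + t) = (T s).comp (T t))
    (hcont : ∀ x : H, ContinuousOn (fun t : ℝ => T t x) (Ici 0))
    (hcontr : ∀ t : ℝ, 0 ≤ t → ‖T t‖ ≤ 1) (x y : H)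
    (hxy : Tendsto (fun h : ℝ => ((h : ℂ)⁻¹) • (T h x - x)) (𝓝[>] 0) (𝓝 y))
    (μ : ℂ) (hμ : μ.re < 0) (R : ℝ) (hR : R = 1 / |μ.re|) :
    ‖Complex.exp (-(μ * (R : ℂ))) • T R x - x‖ ≤ Real.exp 1 * ‖μ • x - y‖ * R := by
  have hr : 0 < |μ.re| := abs_pos.2 hμ.ne
  have hR0 : 0 < R := by rw [hR]; positivity
  have hrR : -μ.re * R = 1 := by
    rw [hR, abs_of_neg hμ]
    field_simp [hμ.ne]
  -- right derivative of the orbit
  have hd : ∀ t : ℝ, 0 ≤ t → HasDerivWithinAt (fun s : ℝ => T s x) (T t y) (Ici t) t := by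
    intro t ht
    rw [← hasDerivWithinAt_Ioi_iff_Ici, hasDerivWithinAt_iff_tendsto_slope' (by simp)]
    have h1 : Tendsto (fun s : ℝ => s - t) (𝓝[>] t) (𝓝[>] 0) := by
      apply tendsto_nhdsWithin_iff.2 ⟨?_, ?_⟩
      · have : Tendsto (fun s : ℝ => s - t) (𝓝 t) (𝓝 (t - t)) := by
          exact (continuous_id.sub continuous_const).tendsto t
        rw [sub_self] at this
        exact this.mono_left nhdsWithin_le_nhds
      · filter_upwards [self_mem_nhdsWithin] with s hs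
        have : t < s := hs
        show 0 < s - t
        linarith
    have h2 := ((T t).continuous.tendsto y).comp (hxy.comp h1)
    refine h2.congr' ?_
    filter_upwards [self_mem_nhdsWithin] with s hs
    have hts : t < s := hs
    have h3 : T s x = T t (T (s - t) x) := by
      have := hadd t (s - t) ht (by linarith)
      rw [show t + (s - t) = s by ring] at this
      rw [this]; rfl
    simp only [Function.comp_apply, slope_def_module]
    rw [h3, map_smul, map_sub, ← Complex.ofReal_inv, Complex.coe_smul]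
  have hφ : ∀ t : ℝ, 0 ≤ t → HasDerivWithinAt
      (fun s : ℝ => Complex.exp (-(μ * (s : ℂ))) • T s x)
      (Complex.exp (-(μ * (t : ℂ))) • T t (y - μ • x)) (Ici t) t := by
    intro t ht
    have h1 : HasDerivAt (fun s : ℝ => Complex.exp (-(μ * (s : ℂ))))
        (Complex.exp (-(μ * (t : ℂ))) * (-(μ * 1))) t := by
      apply HasDerivAt.cexp
      apply HasDerivAt.neg
      exact (HasDerivAt.ofReal_comp (hasDerivAt_id t)).const_mul μ
    refine (h1.hasDerivWithinAt.smul (hd t ht)).congr_deriv ?_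
    rw [map_sub, map_smul, smul_sub, mul_neg, mul_one, neg_smul, smul_smul, sub_eq_add_neg]
  have hnorm : ∀ t : ℝ, ‖Complex.exp (-(μ * (t : ℂ)))‖ = Real.exp (-μ.re * t) := by
    intro t
    rw [Complex.norm_exp]
    congr 1
    simp
  have hb : ∀ t ∈ Ico (0 : ℝ) R, ‖Complex.exp (-(μ * (t : ℂ))) • T t (y - μ • x)‖ ≤
      Real.exp 1 * ‖μ • x - y‖ := by
    intro t ht
    rw [norm_smul, hnorm]
    have h1 : Real.exp (-μ.re * t) ≤ Real.exp 1 := by
      apply Real.exp_le_exp.2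
      rw [← hrR]
      exact mul_le_mul_of_nonneg_left ht.2.le (by linarith)
    have h2 : ‖T t (y - μ • x)‖ ≤ ‖μ • x - y‖ := by
      rw [norm_sub_rev (μ • x) y]
      calc _ ≤ ‖T t‖ * ‖y - μ • x‖ := (T t).le_opNorm _
        _ ≤ 1 * ‖y - μ • x‖ := mul_le_mul_of_nonneg_right (hcontr t ht.1) (norm_nonneg _)
        _ = _ := one_mul _
    exact mul_le_mul h1 h2 (norm_nonneg _) (Real.exp_nonneg _)
  have hcontφ : ContinuousOn (fun s : ℝ => Complex.exp (-(μ * (s : ℂ))) • T s x) (Icc 0 R) := by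
    apply ContinuousOn.smul
    · fun_prop
    · exact (hcont x).mono Icc_subset_Ici_self
  have := norm_image_sub_le_of_norm_deriv_right_le_segment hcontφ
    (fun t ht => hφ t ht.1) hb R (right_mem_Icc.2 hR0.le)
  simpa [h0] using this

end abstract

/-! ### The weighted space and right translation -/

/-- the weight `1/(1+u)` on `(0,∞)`. -/
def wt : ℝ → ℝ≥0∞ := (Ioi (0 : ℝ)).indicator (fun u => ENNReal.ofReal ((1 + u)⁻¹))

lemma measurable_wt : Measurable wt := by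
  apply Measurable.indicator _ measurableSet_Ioi
  fun_prop

lemma wt_le_one (u : ℝ) : wt u ≤ 1 := by
  unfold wt
  by_cases hu : u ∈ Ioi (0 : ℝ)
  · rw [indicator_of_mem hu]
    rw [ENNReal.ofReal_le_one]
    have : (0 : ℝ) < u := hu
    exact inv_le_one_of_one_le₀ (by linarith)
  · rw [indicator_of_notMem hu]; exact zero_le

lemma wt_of_pos {u : ℝ} (hu : 0 < u) : wt u = ENNReal.ofReal ((1 + u)⁻¹) :=
  indicator_of_mem (show u ∈ Ioi (0 : ℝ) from hu) _

lemma wt_of_nonpos {u : ℝ} (hu : u ≤ 0) : wt u = 0 :=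
  indicator_of_notMem (show u ∉ Ioi (0 : ℝ) from not_lt.2 hu) _

lemma wt_anti {u a : ℝ} (hu : 0 < u) (ha : 0 ≤ a) : wt (u + a) ≤ wt u := by
  rw [wt_of_pos hu, wt_of_pos (by linarith)]
  apply ENNReal.ofReal_le_ofReal
  exact inv_anti₀ (by linarith) (by linarith)

lemma wt_doubling {u a : ℝ} (ha : 0 ≤ a) (hau : a ≤ u) (hu : 0 < u) : wt u ≤ 2 * wt (u + a) := by
  rw [wt_of_pos hu, wt_of_pos (by linarith)]
  rw [show (2 : ℝ≥0∞) = ENNReal.ofReal 2 by simp, ← ENNReal.ofReal_mul (by norm_num)]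
  apply ENNReal.ofReal_le_ofReal
  rw [← div_eq_mul_inv, inv_eq_one_div, div_le_div_iff₀ (by linarith) (by linarith)]
  linarith

/-- the weighted measure `du/(1+u)` on `(0,∞)`. -/
def μw : Measure ℝ := volume.withDensity wt

lemma μw_le : μw ≤ volume := by
  have h : μw ≤ (volume : Measure ℝ).withDensity (fun _ => 1) :=
    withDensity_mono (ae_of_all _ wt_le_one)
  have h1 : (volume : Measure ℝ).withDensity (fun _ => (1 : ℝ≥0∞)) = volume := withDensity_one
  rwa [h1] at h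

instance : IsLocallyFiniteMeasure μw := Measure.isLocallyFiniteMeasure_of_le μw_le

/-- the Hilbert space. -/
abbrev H : Type := Lp ℂ 2 μw

lemma lintegral_μw {G : ℝ → ℝ≥0∞} (hG : Measurable G) :
    ∫⁻ u, G u ∂μw = ∫⁻ u, wt u * G u := by
  unfold μw
  rw [lintegral_withDensity_eq_lintegral_mul _ measurable_wt hG]
  rfl

lemma eLpNorm_sq (F : ℝ → ℂ) (μ : Measure ℝ) :
    eLpNorm F 2 μ ^ 2 = ∫⁻ u, ‖F u‖ₑ ^ 2 ∂μ := by
  have h := eLpNorm_nnreal_pow_eq_lintegral (μ := μ) (f := F) (p := 2) (by norm_num)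
  have h2 : ((2 : NNReal) : ℝ) = (2 : ℕ) := by norm_num
  rw [h2, ENNReal.rpow_natCast] at h
  simp only [ENNReal.rpow_natCast] at h
  exact_mod_cast h

lemma enorm_sq (f : H) : ‖f‖ₑ ^ 2 = ∫⁻ u, ‖f u‖ₑ ^ 2 ∂μw := by
  rw [Lp.enorm_def, eLpNorm_sq]

/-- right translation by `a`, extended by `0`. -/
def Θ (a : ℝ) (F : ℝ → ℂ) : ℝ → ℂ := fun u => (Ioi (0 : ℝ)).indicator F (u - a)

lemma measurable_Θ (a : ℝ) {F : ℝ → ℂ} (hF : Measurable F) : Measurable (Θ a F) :=
  (hF.indicator measurableSet_Ioi).comp (measurable_id.sub_const a)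

lemma Θ_sub (a : ℝ) (F G : ℝ → ℂ) : Θ a (F - G) = Θ a F - Θ a G := by
  funext u
  simp only [Θ, Pi.sub_apply]
  by_cases h : u - a ∈ Ioi (0 : ℝ)
  · rw [indicator_of_mem h, indicator_of_mem h, indicator_of_mem h]; rfl
  · rw [indicator_of_notMem h, indicator_of_notMem h, indicator_of_notMem h]; simp

lemma lintegral_Θ (a : ℝ) {F : ℝ → ℂ} (hF : Measurable F) :
    ∫⁻ u, ‖Θ a F u‖ₑ ^ 2 ∂μw =
      ∫⁻ v, wt (v + a) * ‖(Ioi (0 : ℝ)).indicator F v‖ₑ ^ 2 := by
  rw [lintegral_μw (by have := measurable_Θ a hF; fun_prop)]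
  rw [← lintegral_add_right_eq_self _ a]
  apply lintegral_congr
  intro v
  simp [Θ]

lemma eLpNorm_Θ_le {a : ℝ} (ha : 0 ≤ a) {F : ℝ → ℂ} (hF : Measurable F) :
    eLpNorm (Θ a F) 2 μw ≤ eLpNorm F 2 μw := by
  have h : eLpNorm (Θ a F) 2 μw ^ 2 ≤ eLpNorm F 2 μw ^ 2 := by
    rw [eLpNorm_sq, eLpNorm_sq, lintegral_Θ a hF, lintegral_μw (by fun_prop)]
    apply lintegral_mono
    intro v
    beta_reduce
    by_cases hv : v ∈ Ioi (0 : ℝ)
    · rw [indicator_of_mem hv]
      gcongr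
      exact wt_anti hv ha
    · rw [indicator_of_notMem hv]; simp
  exact (ENNReal.pow_le_pow_left_iff (by norm_num)).1 h

lemma Θ_congr {a : ℝ} (ha : 0 ≤ a) {F G : ℝ → ℂ} (hF : Measurable F) (hG : Measurable G)
    (h : F =ᵐ[μw] G) : Θ a F =ᵐ[μw] Θ a G := by
  have h1 : eLpNorm (F - G) 2 μw = 0 := by
    rw [eLpNorm_eq_zero_iff (hF.sub hG).aestronglyMeasurable (by norm_num)]
    filter_upwards [h] with u hu
    simp [hu]
  have h2 : eLpNorm (Θ a (F - G)) 2 μw = 0 :=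
    le_antisymm ((eLpNorm_Θ_le ha (hF.sub hG)).trans h1.le) zero_le
  rw [eLpNorm_eq_zero_iff (measurable_Θ a (hF.sub hG)).aestronglyMeasurable (by norm_num),
    Θ_sub] at h2
  filter_upwards [h2] with u hu
  have : Θ a F u - Θ a G u = 0 := hu
  exact sub_eq_zero.1 this

lemma memLp_Θ {a : ℝ} (ha : 0 ≤ a) {F : ℝ → ℂ} (hF : Measurable F) (h : MemLp F 2 μw) :
    MemLp (Θ a F) 2 μw :=
  ⟨(measurable_Θ a hF).aestronglyMeasurable, (eLpNorm_Θ_le ha hF).trans_lt h.2⟩

lemma meas (f : H) : Measurable (f : ℝ → ℂ) := (Lp.stronglyMeasurable f).measurable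

/-- The translation operator on `H` (for `a ≥ 0`). -/
def Tlin (a : ℝ) (ha : 0 ≤ a) : H →ₗ[ℂ] H where
  toFun f := (memLp_Θ ha (meas f) (Lp.memLp f)).toLp (Θ a f)
  map_add' f g := by
    rw [← MemLp.toLp_add, MemLp.toLp_eq_toLp_iff]
    refine (Θ_congr ha (meas _) ((meas f).add (meas g)) (Lp.coeFn_add f g)).trans ?_
    apply Eventually.of_forall
    intro u
    simp only [Θ, Pi.add_apply]
    by_cases h : u - a ∈ Ioi (0 : ℝ)
    · rw [indicator_of_mem h, indicator_of_mem h, indicator_of_mem h]; rfl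
    · rw [indicator_of_notMem h, indicator_of_notMem h, indicator_of_notMem h]; simp
  map_smul' c f := by
    rw [RingHom.id_apply, ← MemLp.toLp_const_smul, MemLp.toLp_eq_toLp_iff]
    refine (Θ_congr ha (meas _) ((meas f).const_smul c) (Lp.coeFn_smul c f)).trans ?_
    apply Eventually.of_forall
    intro u
    simp only [Θ, Pi.smul_apply]
    by_cases h : u - a ∈ Ioi (0 : ℝ)
    · rw [indicator_of_mem h, indicator_of_mem h]; rfl
    · rw [indicator_of_notMem h, indicator_of_notMem h]; simp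

lemma Tlin_norm_le (a : ℝ) (ha : 0 ≤ a) (f : H) : ‖Tlin a ha f‖ ≤ 1 * ‖f‖ := by
  rw [one_mul]
  show ‖(memLp_Θ ha (meas f) (Lp.memLp f)).toLp (Θ a f)‖ ≤ ‖f‖
  rw [Lp.norm_toLp, Lp.norm_def]
  exact ENNReal.toReal_mono (Lp.memLp f).2.ne (eLpNorm_Θ_le ha (meas f))

/-- The right translation semigroup `T(t) = Θ_{|t|}`. -/
def T (t : ℝ) : H →L[ℂ] H := (Tlin |t| (abs_nonneg t)).mkContinuous 1 (Tlin_norm_le _ _)

lemma T_norm_le (t : ℝ) : ‖T t‖ ≤ 1 := LinearMap.mkContinuous_norm_le _ zero_le_one _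

lemma T_coe {t : ℝ} (ht : 0 ≤ t) (f : H) : T t f =ᵐ[μw] Θ t f := by
  have h : T t f = (memLp_Θ (abs_nonneg t) (meas f) (Lp.memLp f)).toLp (Θ |t| f) := rfl
  rw [h]
  refine (MemLp.coeFn_toLp _).trans ?_
  rw [abs_of_nonneg ht]

lemma ae_pos : ∀ᵐ u ∂μw, 0 < u := by
  rw [ae_iff]
  have : {u : ℝ | ¬ 0 < u} = Iic 0 := by ext u; simp
  rw [this, μw, withDensity_apply _ measurableSet_Iic]
  rw [setLIntegral_congr_fun (g := fun _ => 0) measurableSet_Iic (fun u hu => wt_of_nonpos hu)]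
  simp

lemma T_zero : T 0 = ContinuousLinearMap.id ℂ H := by
  ext1 f
  apply Lp.ext
  refine (T_coe le_rfl f).trans ?_
  filter_upwards [ae_pos] with u hu
  simp only [Θ, sub_zero]
  rw [indicator_of_mem (show u ∈ Ioi (0 : ℝ) from hu)]
  rfl

lemma T_add (s t : ℝ) (hs : 0 ≤ s) (ht : 0 ≤ t) : T (s + t) = (T s).comp (T t) := by
  ext1 f
  apply Lp.ext
  refine (T_coe (add_nonneg hs ht) f).trans ?_
  show Θ (s + t) f =ᵐ[μw] (T s (T t f) : ℝ → ℂ)
  refine EventuallyEq.symm ((T_coe hs (T t f)).trans ?_)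
  refine (Θ_congr hs (meas _) (measurable_Θ t (meas f)) (T_coe ht f)).trans ?_
  apply Eventually.of_forall
  intro u
  simp only [Θ]
  by_cases h : u - s ∈ Ioi (0 : ℝ)
  · rw [indicator_of_mem h]
    show (Ioi (0 : ℝ)).indicator f (u - s - t) = _
    rw [show u - s - t = u - (s + t) by ring]
  · rw [indicator_of_notMem h, indicator_of_notMem]
    have h' : ¬ (0 < u - s) := h
    intro h2
    have h2' : 0 < u - (s + t) := h2
    apply h'
    linarith

/-- strong continuity at `0`. -/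
lemma T_tendsto (f : H) : Tendsto (fun h : ℝ => T h f) (𝓝[>] 0) (𝓝 f) := by
  rw [EMetric.tendsto_nhds]
  intro ε hε
  have hε3 : ε / 3 ≠ 0 := (ENNReal.div_pos hε.ne' (by norm_num)).ne'
  obtain ⟨g, hgc, hfg, hgcont, hgm⟩ :=
    (Lp.memLp f).exists_hasCompactSupport_eLpNorm_sub_le (by norm_num) hε3
  set gp : ℝ → ℂ := (Ioi (0 : ℝ)).indicator g with hgp
  have hgpm : MemLp gp 2 (volume : Measure ℝ) :=
    (hgcont.memLp_of_hasCompactSupport hgc).indicator measurableSet_Ioi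
  set F : Lp ℂ 2 (volume : Measure ℝ) := hgpm.toLp gp with hF
  have hcont : Tendsto (fun t : ℝ => (DomAddAct.mk (-t)) +ᵥ F) (𝓝[>] 0) (𝓝 F) := by
    have h1 : Continuous (fun t : ℝ => (DomAddAct.mk (-t)) +ᵥ F) := by
      have : Fact ((2 : ℝ≥0∞) ≠ ∞) := ⟨by norm_num⟩
      apply Continuous.vadd (DomAddAct.continuous_mk.comp continuous_neg) continuous_const
    have h2 := h1.tendsto 0
    have h3 : (DomAddAct.mk (-(0 : ℝ))) +ᵥ F = F := by
      rw [neg_zero]
      apply Lp.ext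
      refine (DomAddAct.vadd_Lp_ae_eq _ _).trans ?_
      apply Eventually.of_forall
      intro u
      simp
    rw [h3] at h2
    exact h2.mono_left nhdsWithin_le_nhds
  rw [EMetric.tendsto_nhds] at hcont
  filter_upwards [hcont (ε / 3) (pos_iff_ne_zero.2 hε3), self_mem_nhdsWithin] with t ht htpos
  have ht0 : (0 : ℝ) ≤ t := le_of_lt htpos
  have hgmeas : Measurable g := hgcont.measurable
  -- edist (T t f) f ≤ edist (T t f) (T t g) + edist (T t g) g + edist g f
  set G : H := hgm.toLp g with hG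
  have e1 : edist f G ≤ ε / 3 := by
    rw [Lp.edist_def]
    refine le_trans (le_of_eq ?_) hfg
    apply eLpNorm_congr_ae
    exact (EventuallyEq.refl _ _).sub hgm.coeFn_toLp
  have e2 : edist (T t f) (T t G) ≤ ε / 3 := by
    refine le_trans ?_ e1
    rw [edist_eq_enorm_sub, edist_eq_enorm_sub, ← map_sub]
    rw [← ofReal_norm, ← ofReal_norm]
    apply ENNReal.ofReal_le_ofReal
    calc _ ≤ ‖T t‖ * ‖f - G‖ := (T t).le_opNorm _
      _ ≤ 1 * ‖f - G‖ := mul_le_mul_of_nonneg_right (T_norm_le t) (norm_nonneg _)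
      _ = _ := one_mul _
  have e3 : edist (T t G) G < ε / 3 := by
    refine lt_of_le_of_lt ?_ ht
    rw [Lp.edist_def, Lp.edist_def]
    have h1 : eLpNorm (((T t G : H) : ℝ → ℂ) - (G : ℝ → ℂ)) 2 μw = eLpNorm (Θ t g - gp) 2 μw := by
      apply eLpNorm_congr_ae
      apply EventuallyEq.sub
      · refine (T_coe ht0 G).trans ?_
        exact Θ_congr ht0 (meas _) hgmeas hgm.coeFn_toLp
      · refine hgm.coeFn_toLp.trans ?_
        filter_upwards [ae_pos] with u hu
        rw [hgp, indicator_of_mem (show u ∈ Ioi (0 : ℝ) from hu)]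
    have h2 : eLpNorm ((((DomAddAct.mk (-t)) +ᵥ F : Lp ℂ 2 (volume : Measure ℝ)) : ℝ → ℂ) -
        (F : ℝ → ℂ)) 2 volume = eLpNorm (Θ t g - gp) 2 volume := by
      apply eLpNorm_congr_ae
      apply EventuallyEq.sub
      · rw [hF, DomAddAct.mk_vadd_toLp]
        refine (MemLp.coeFn_toLp _).trans ?_
        apply Eventually.of_forall
        intro u
        show gp (-t + u) = _
        rw [hgp]
        simp only [Θ]
        rw [show -t + u = u - t by ring]
      · exact hgpm.coeFn_toLp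
    rw [h1, h2]
    exact eLpNorm_mono_measure _ μw_le
  calc edist (T t f) f ≤ edist (T t f) (T t G) + edist (T t G) G + edist G f :=
        edist_triangle4 _ _ _ _
    _ < ε / 3 + ε / 3 + ε / 3 := by
        have hfin : ∀ z : ℝ≥0∞, z ≤ ε / 3 → ε / 3 ≠ ⊤ → z ≠ ⊤ := fun z hz h =>
          (hz.trans_lt (lt_top_iff_ne_top.2 h)).ne
        by_cases htop : ε / 3 = ⊤
        · rw [htop] at *
          have : edist (T t f) (T t G) + edist (T t G) G + edist G f ≠ ⊤ := by
            simp [edist_ne_top]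
          simpa using lt_top_iff_ne_top.2 this
        · apply ENNReal.add_lt_add_of_lt_of_le
          · exact edist_ne_top _ _
          · exact ENNReal.add_lt_add_of_le_of_lt (edist_ne_top _ _) e2 e3
          · rw [edist_comm]; exact e1
    _ = ε := ENNReal.add_thirds ε

/-- the lower estimate for the translation. -/
lemma lower (R : ℝ) (hR : 0 < R) (x z : H) (c : ℂ) (hz : z = c • T R x - x) :
    ‖x‖ₑ ^ 2 ≤ ‖z‖ₑ ^ 2 + 2 * ‖T R x‖ₑ ^ 2 := by
  rw [enorm_sq x, ← lintegral_add_compl _ (measurableSet_Iic (a := R))]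
  apply add_le_add
  · -- on `(0, R]`
    rw [enorm_sq z]
    have h1 : ∀ᵐ u ∂μw, u ∈ Iic R → ‖x u‖ₑ ^ 2 = ‖z u‖ₑ ^ 2 := by
      have hz1 : (z : ℝ → ℂ) =ᵐ[μw] fun u => c * (T R x) u - x u := by
        rw [hz]
        filter_upwards [Lp.coeFn_sub (c • T R x) x, Lp.coeFn_smul c (T R x)] with u h1 h2
        rw [h1, Pi.sub_apply, h2, Pi.smul_apply, smul_eq_mul]
      filter_upwards [hz1, T_coe hR.le x] with u h1 h2 hu
      rw [h1, h2]
      have : Θ R x u = 0 := by
        apply indicator_of_notMem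
        intro h
        have h' : 0 < u - R := h
        have hu' : u ≤ R := hu
        linarith
      rw [this, mul_zero, zero_sub, enorm_neg]
    rw [setLIntegral_congr_fun_ae measurableSet_Iic h1]
    exact setLIntegral_le_lintegral _ _
  · rw [enorm_sq (T R x)]
    have h2 : ∫⁻ u, ‖(T R x) u‖ₑ ^ 2 ∂μw = ∫⁻ u, ‖Θ R x u‖ₑ ^ 2 ∂μw := by
      apply lintegral_congr_ae
      filter_upwards [T_coe hR.le x] with u hu
      rw [hu]
    have hx : Measurable (x : ℝ → ℂ) := meas x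
    rw [h2, lintegral_Θ R hx, ← lintegral_const_mul _ (by
      have : Measurable ((Ioi (0 : ℝ)).indicator (x : ℝ → ℂ)) := hx.indicator measurableSet_Ioi
      have h3 := measurable_wt
      fun_prop), ← lintegral_indicator (measurableSet_Iic.compl), lintegral_μw (by
        apply Measurable.indicator _ measurableSet_Iic.compl
        fun_prop)]
    apply lintegral_mono
    intro v
    beta_reduce
    by_cases hv : v ∈ (Iic R)ᶜ
    · have hv' : R < v := by simpa using hv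
      have hv0 : 0 < v := hR.trans hv'
      rw [indicator_of_mem hv, indicator_of_mem (show v ∈ Ioi (0 : ℝ) from hv0), ← mul_assoc]
      gcongr
      exact wt_doubling hR.le hv'.le hv0
    · rw [indicator_of_notMem hv]; simp

lemma lower_real (R : ℝ) (hR : 0 < R) (x z : H) (c : ℂ) (hz : z = c • T R x - x) :
    ‖x‖ ^ 2 ≤ ‖z‖ ^ 2 + 2 * ‖T R x‖ ^ 2 := by
  have h := lower R hR x z c hz
  rw [← ofReal_norm, ← ofReal_norm, ← ofReal_norm, ← ENNReal.ofReal_pow (norm_nonneg _),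
    ← ENNReal.ofReal_pow (norm_nonneg _), ← ENNReal.ofReal_pow (norm_nonneg _)] at h
  have h2 : (2 : ℝ≥0∞) * ENNReal.ofReal (‖T R x‖ ^ 2) = ENNReal.ofReal (2 * ‖T R x‖ ^ 2) := by
    rw [ENNReal.ofReal_mul (by norm_num)]; simp
  rw [h2, ← ENNReal.ofReal_add (by positivity) (by positivity)] at h
  exact (ENNReal.ofReal_le_ofReal_iff (by positivity)).1 h

lemma T_contr (t : ℝ) (_ : 0 ≤ t) : ‖T t‖ ≤ 1 := T_norm_le t

lemma T_cont (x : H) : ContinuousOn (fun t : ℝ => T t x) (Ici 0) :=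
  orbit_continuousOn T T_add T_contr x (T_tendsto x)

/-- condition (i) with `m = 1/20`. -/
lemma resolvent_lower (x y : H)
    (hxy : Tendsto (fun h : ℝ => ((h : ℂ)⁻¹) • (T h x - x)) (𝓝[>] 0) (𝓝 y))
    (μ : ℂ) (hμ : μ.re < 0) : (1 / 20) * |μ.re| * ‖x‖ ≤ ‖μ • x - y‖ := by
  set R : ℝ := 1 / |μ.re| with hR
  have hr : 0 < |μ.re| := abs_pos.2 hμ.ne
  have hR0 : 0 < R := by rw [hR]; positivity
  have hb := generator_bound T T_zero T_add T_cont T_contr x y hxy μ hμ R hR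
  set c : ℂ := Complex.exp (-(μ * (R : ℂ))) with hc
  set z : H := c • T R x - x with hz
  have hl := lower_real R hR0 x z c hz
  have hcn : ‖c‖ = Real.exp 1 := by
    rw [hc, Complex.norm_exp]
    congr 1
    have : -μ.re * R = 1 := by
      rw [hR, abs_of_neg hμ]
      field_simp [hμ.ne]
    simpa using this
  set D : ℝ := ‖z‖ with hD
  have hD0 : 0 ≤ D := norm_nonneg _
  have he : (2.7182818283 : ℝ) < Real.exp 1 := Real.exp_one_gt_d9
  have he' : Real.exp 1 < (2.7182818286 : ℝ) := Real.exp_one_lt_d9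
  have h1 : Real.exp 1 * ‖T R x‖ ≤ ‖x‖ + D := by
    rw [← hcn, ← norm_smul]
    have : c • T R x = x + z := by rw [hz]; abel
    rw [this]
    exact norm_add_le _ _
  -- ‖x‖ ≤ 7 D
  have h2 : ‖x‖ ≤ 7 * D := by
    have hx0 : 0 ≤ ‖x‖ := norm_nonneg _
    have hT0 : 0 ≤ ‖T R x‖ := norm_nonneg _
    have h3 : ‖T R x‖ ≤ (‖x‖ + D) / 2.7 := by
      rw [le_div_iff₀ (by norm_num)]
      nlinarith
    by_contra hcon
    push Not at hcon
    have hX : 0 < ‖x‖ := by linarith
    have h3' : ‖T R x‖ ≤ (1 / 2) * ‖x‖ := by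
      refine h3.trans ?_
      rw [div_le_iff₀ (by norm_num)]
      nlinarith
    have h4 : ‖T R x‖ ^ 2 ≤ ((1 / 2) * ‖x‖) ^ 2 := pow_le_pow_left₀ hT0 h3' 2
    have h8 : D ^ 2 ≤ ((1 / 7) * ‖x‖) ^ 2 := pow_le_pow_left₀ hD0 (by linarith) 2
    nlinarith [pow_pos hX 2]
  have h5 : D ≤ Real.exp 1 * ‖μ • x - y‖ * R := hb
  have h6 : |μ.re| * R = 1 := by rw [hR]; field_simp
  have hn : 0 ≤ ‖μ • x - y‖ := norm_nonneg _
  have h7 : |μ.re| * D ≤ Real.exp 1 * ‖μ • x - y‖ := by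
    calc |μ.re| * D ≤ |μ.re| * (Real.exp 1 * ‖μ • x - y‖ * R) :=
          mul_le_mul_of_nonneg_left h5 hr.le
      _ = (|μ.re| * R) * (Real.exp 1 * ‖μ • x - y‖) := by ring
      _ = _ := by rw [h6, one_mul]
  nlinarith

/-- the test function `1_{(0,1)}`. -/
def f0 : H := indicatorConstLp 2 (measurableSet_Ioc (a := (0 : ℝ)) (b := 1))
  ((μw_le _).trans_lt (by simp)).ne (1 : ℂ)

lemma μw_Ioc_le (t : ℝ) (ht : 0 ≤ t) : ‖T t f0‖ₑ ^ 2 ≤ ENNReal.ofReal ((1 + t)⁻¹) := by
  have h2 : ∫⁻ u, ‖(T t f0) u‖ₑ ^ 2 ∂μw =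
      ∫⁻ u, ‖Θ t ((Ioc (0 : ℝ) 1).indicator (fun _ => (1 : ℂ))) u‖ₑ ^ 2 ∂μw := by
    apply lintegral_congr_ae
    have h3 : Θ t f0 =ᵐ[μw] Θ t ((Ioc (0 : ℝ) 1).indicator (fun _ => (1 : ℂ))) :=
      Θ_congr ht (meas _) (measurable_const.indicator measurableSet_Ioc) indicatorConstLp_coeFn
    filter_upwards [T_coe ht f0, h3] with u hu hu2
    rw [hu, hu2]
  rw [enorm_sq, h2, lintegral_Θ t (measurable_const.indicator measurableSet_Ioc)]
  calc _ ≤ ∫⁻ v, (Ioc (0 : ℝ) 1).indicator (fun _ => ENNReal.ofReal ((1 + t)⁻¹)) v := by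
        apply lintegral_mono
        intro v
        beta_reduce
        by_cases hv : v ∈ Ioc (0 : ℝ) 1
        · rw [indicator_of_mem hv, indicator_of_mem (show v ∈ Ioi (0 : ℝ) from hv.1),
            indicator_of_mem hv, wt_of_pos (by linarith [hv.1])]
          simp only [enorm_one, one_pow, mul_one]
          apply ENNReal.ofReal_le_ofReal
          exact inv_anti₀ (by linarith) (by linarith [hv.1])
        · rw [indicator_of_notMem hv]
          by_cases hv2 : v ∈ Ioi (0 : ℝ)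
          · rw [indicator_of_mem hv2, indicator_of_notMem hv]; simp
          · rw [indicator_of_notMem hv2]; simp
    _ = ENNReal.ofReal ((1 + t)⁻¹) := by
        rw [lintegral_indicator measurableSet_Ioc, lintegral_const]
        simp

lemma T_f0_le (t : ℝ) (ht : 0 ≤ t) : ‖T t f0‖ ^ 2 ≤ (1 + t)⁻¹ := by
  have h := μw_Ioc_le t ht
  rw [← ofReal_norm, ← ENNReal.ofReal_pow (norm_nonneg _)] at h
  exact (ENNReal.ofReal_le_ofReal_iff (by positivity)).1 h

lemma f0_pos : 0 < ‖f0‖ := by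
  have h : ‖f0‖ₑ ^ 2 ≠ 0 := by
    rw [enorm_sq]
    have h2 : ∫⁻ u, ‖f0 u‖ₑ ^ 2 ∂μw =
        ∫⁻ u, ‖((Ioc (0 : ℝ) 1).indicator (fun _ => (1 : ℂ))) u‖ₑ ^ 2 ∂μw := by
      apply lintegral_congr_ae
      have h3 : f0 =ᵐ[μw] ((Ioc (0 : ℝ) 1).indicator (fun _ => (1 : ℂ))) :=
        indicatorConstLp_coeFn
      filter_upwards [h3] with u hu
      rw [hu]
    rw [h2, lintegral_μw (by
      have : Measurable ((Ioc (0 : ℝ) 1).indicator (fun _ => (1 : ℂ))) :=
        measurable_const.indicator measurableSet_Ioc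
      fun_prop)]
    have h4 : ENNReal.ofReal (1 / 2) ≤ ∫⁻ u, wt u *
        ‖((Ioc (0 : ℝ) 1).indicator (fun _ => (1 : ℂ))) u‖ₑ ^ 2 := by
      calc ENNReal.ofReal (1 / 2) =
          ∫⁻ v, (Ioc (0 : ℝ) 1).indicator (fun _ => ENNReal.ofReal (1 / 2)) v := by
            rw [lintegral_indicator measurableSet_Ioc, lintegral_const]
            simp
        _ ≤ _ := by
            apply lintegral_mono
            intro v
            beta_reduce
            by_cases hv : v ∈ Ioc (0 : ℝ) 1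
            · rw [indicator_of_mem hv, indicator_of_mem hv, wt_of_pos hv.1]
              simp only [enorm_one, one_pow, mul_one]
              apply ENNReal.ofReal_le_ofReal
              rw [one_div]
              exact inv_anti₀ (by linarith [hv.1]) (by linarith [hv.2])
            · rw [indicator_of_notMem hv]; exact zero_le
    intro h5
    rw [h5] at h4
    have h6 : (0 : ℝ≥0∞) < ENNReal.ofReal (1 / 2) := ENNReal.ofReal_pos.2 (by norm_num)
    exact absurd h4 (not_le.2 h6)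
  rw [norm_pos_iff]
  intro h0
  apply h
  rw [h0]
  simp

/-- condition (ii) fails. -/
lemma not_bounded_below : ¬ ∃ m₁ : ℝ, 0 < m₁ ∧ ∀ t : ℝ, 0 ≤ t → ∀ x : H, m₁ * ‖x‖ ≤ ‖T t x‖ := by
  rintro ⟨m, hm, h⟩
  set a : ℝ := (m * ‖f0‖) ^ 2 with ha
  have ha0 : 0 < a := by have := f0_pos; positivity
  have h1 : ∀ t : ℝ, 0 ≤ t → a ≤ (1 + t)⁻¹ := by
    intro t ht
    have h2 := h t ht f0
    exact (pow_le_pow_left₀ (by positivity) h2 2).trans (T_f0_le t ht)
  have h2 := h1 (1 / a) (by positivity)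
  rw [le_inv_comm₀ ha0 (by positivity)] at h2
  rw [inv_eq_one_div] at h2
  linarith

end
end Pool.Agent.R220.WShift
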